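import Pool.Agent.K6.H80.BL.Main
import Pool.Agent.K6.H80.LV.Lin

/-!
MP_4dacf8_ag, Q1: Vojta's height inequality, with constant one and with the truncated counting
function, for all algebraic points outside of an arbitrary prescribed exceptional set: generic members
of arbitrary linear systems on an arbitrary projective variety.

Let `F` be a function field of one variable over an algebraically closed field `k` of characteristic
`0`, and `F0` a subfield of `F` that is finitely generated over a subfield `k0` of `k`. Let `V` be a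
closed subvariety of projective space of dimension `n`, given by forms over `F0` (it need not be
isotrivial), and `m` at least the dimension of `V`. For `a` in a finite set `A`, let
`H_a = G_a + ∑ c_(a,j) P_(a,j)` be a generic member of ANY linear system of forms of a degree `d_a`
on `V`: the `G_a` and `P_(a,j)` are arbitrary forms of degree `d_a` over `F0`, and the coefficients
`c_(a,j)` in `F` are, for all `a` together, algebraically independent over `F0`. (If `k` is
uncountable and `F0` is countable, the coefficients may be very general elements of `k`, or very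
general families.) Let `Λ_a` be the linear system on `V` generated by the `P_(a,j)`.

We say that `Λ_a` is free to the order `e_a` at a point `x` (`Free`) if there is a form `g` of degree
`d_a - e_a` over `F0` with `g(x) ≠ 0` such that, on `V`, the system `Λ_a` contains the products of `g`
with all the monomials of degree `e_a` in at most two of the variables.

Let `x` be a point of `V` over a finite extension `L` of `F`, with one of the coordinates equal to
`1`. A subset `B` of `A` is *related* at `x` if, for `b ∈ B`, the value `H_b(x)` is algebraic over the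
field generated over `F0` by `x` and the `H_a(x)`, `a ∉ B`; for instance, if `H_b(x) = 0` for all
`b ∈ B`, that is, if `x` is a point of the complete intersection `X = V ∩ {H_b = 0, b ∈ B}`.

Theorem. There is a constant `C`, which does not depend on `L` and `x`, such that, for all such `x`,
all related sets `B`, all sets `T` disjoint from `B` with `H_t(x) ≠ 0` for `t ∈ T`, and all `e_a` such
that `Λ_a` is free to the order `e_a` at `x` for `a ∈ B ∪ T`,

`(∑_(b ∈ B) (e_b + 1) + ∑_(t ∈ T) e_t - 2 m - 1) h(x) ≤ N_T(x) + 2 g(L) - 2 + C [L : F]`,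

where `h(x)` is the height of `x` with respect to `L`, and `N_T(x)` is the number of the places of `L`
at which `x` meets one of the divisors `H_t = 0`, `t ∈ T`, each place being counted once.

Prescribed exceptional sets: let `W` be an ARBITRARY closed subset (or subscheme) of `V` which is cut
out in `V` by forms of degree `δ` over `F0`, and let the `H_a` be generic forms of degrees `d_a` over
`F` that vanish on `W`, that is, generic members of the linear system of the forms of degree `d_a` in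
the ideal of `W`. Then `Λ_a` is free to the order `d_a - δ` at all points outside of `W`. So the
conjecture, with constant one, holds for the pair of the complete intersection `X` of the `H_b`,
`b ∈ B`, in `V` and of the boundary `D` of the `H_t`, `t ∈ T`, in `X`, with `Z = W ∪ D`, if
`∑_B (d_b - δ + 1) + ∑_T (d_t - δ) ≥ 2 m + 2`: all algebraic points `x` of `X` outside of `W ∪ D`
satisfy `h(x) ≤ N_D(x) + 2 g(L) - 2 + C [L : F]`. Here `W` is contained in `X` and arbitrary; it may
contain all kinds of curves of genus `0` and `1` and of families of points violating the inequality,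
so that the exceptional set `Z` cannot be avoided. The varieties `X` may be very singular along `W`
(for instance, for a power of the ideal of `W`: the hypersurfaces with prescribed singularities), and
`D` may be so too. For example, the generic hypersurface of degree `d ≥ δ + 2 n + 1` in projective
space containing `W` satisfies `h(x) ≤ 2 g(L) - 2 + C [L : F]` for all algebraic points `x` outside of
`W`. For `W = ∅` (`Λ_a` free to the order `d_a` everywhere) compare the starting results
`GenericPairs`, `GenericLogPairs`, and `LinearSystemsOnProducts`, `CodimensionInModuli`.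

More precisely, there are `w`, an `r ≤ m` with `w + |B| ≤ r`, and a space `U` of dimension `r + 1`
between the line of the position vector of `x` and the tangent space at `x` of the cone over `V`, such
that

`(∑_(a ∈ B ∪ T) e_a - w - r - 1) h(x) + h(U) ≤ N_T(x) + 2 g(L) - 2 + C [L : F]`,

where `h(U) ≥ 0` is the height of the Plücker coordinates of `U`. If `V` is smooth of dimension `m`
along `x` and `r = m`, then `U` is the tangent space, and `h(U) - (m + 1) h(x)` is the height with
respect to the canonical class `K_V`. For a complete intersection `X` of `B` and the boundary `D` of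
`T` in it, the left hand side is then the height with respect to
`K_X + D - ∑_(a ∈ B ∪ T) (d_a - e_a) H - w H`, `w ≤ dim X`, where `H` is the class of a hyperplane.

Here `canDeg k L` is the canonical degree `2 g(L) - 2`, and `pht k x = h(x)` is minus the sum over all
places of `L` of the minimum `pord P x` of the orders of the coordinates.
-/

set_option autoImplicit false

namespace Pool.Agent.Results.MP_4dacf8_ag.BaseLoci

open FF MvPolynomial Pool.Agent.W603.LV Pool.Agent.W603.PV

section

variable {F0 : Type} [Field F0] {n : ℕ} (V : Set (MvPolynomial (Fin (n + 1)) F0))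

/-- `x` is a point of `f = 0`, `f ∈ V`, over a field `Ω`, with one of the coordinates equal to
`1`. -/
def IsPoint {Ω : Type} [Field Ω] [Algebra F0 Ω] (x : Fin (n + 1) → Ω) : Prop :=
  (∃ i, x i = 1) ∧ ∀ f ∈ V, aeval x f = 0

/-- The variety `f = 0`, `f ∈ V`, in projective space has dimension at most `m`: the coordinates of
the points in extension fields of `F0` generate fields of transcendence degree at most `m`. -/
def DimLE (m : ℕ) : Prop :=
  ∀ (Ω : Type) [Field Ω] [Algebra F0 Ω] (x : Fin (n + 1) → Ω), IsPoint V x →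
    Algebra.trdeg F0 (IntermediateField.adjoin F0 (Set.range x)) ≤ m

/-- On the variety `f = 0`, `f ∈ V`, the polynomial `h` is a linear combination of the `P j`. -/
def Mem {J : Type} [Fintype J] (P : J → MvPolynomial (Fin (n + 1)) F0)
    (h : MvPolynomial (Fin (n + 1)) F0) : Prop :=
  ∃ b : J → F0, ∀ (Ω : Type) [Field Ω] [Algebra F0 Ω] (x : Fin (n + 1) → Ω), IsPoint V x →
    aeval x h = ∑ j, algebraMap F0 Ω (b j) * aeval x (P j)

/-- `g` is a form of degree `d - e`, and the linear system generated on `V` by the `P j` contains its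
products with all the monomials of degree `e` in at most two of the variables. -/
def Factor {J : Type} [Fintype J] (P : J → MvPolynomial (Fin (n + 1)) F0) (d e : ℕ)
    (g : MvPolynomial (Fin (n + 1)) F0) : Prop :=
  (∃ δ, g.IsHomogeneous δ ∧ δ + e = d) ∧
    ∀ I : Fin (n + 1) →₀ ℕ, ∑ i, I i = e → {i | I i ≠ 0}.ncard ≤ 2 → Mem V P (g * monomial I 1)

/-- The linear system generated on `V` by the forms `P j` of degree `d` is free to the order `e` at
the point `x`. -/
def Free {J : Type} [Fintype J] (P : J → MvPolynomial (Fin (n + 1)) F0) (d e : ℕ) {Ω : Type}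
    [Field Ω] [Algebra F0 Ω] (x : Fin (n + 1) → Ω) : Prop :=
  ∃ g, Factor V P d e g ∧ aeval x g ≠ 0

/-- The vectors `u i` are a basis of a space that contains the position vector of the point `x` and
is contained in the tangent space at `x` of the cone over `V`. -/
def IsTangentBasis {L : Type} [Field L] [Algebra F0 L] (x : Fin (n + 1) → L) {r : ℕ}
    (u : Fin r → Fin (n + 1) → L) : Prop :=
  LinearIndependent L u ∧ x ∈ Submodule.span L (Set.range u) ∧
  ∀ i, ∀ f ∈ V, ∑ l, aeval x (pderiv l f) * u i l = 0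

end

/-- The height of the space with the basis `u`: the height of its Plücker coordinates. -/
noncomputable def spaceHeight (k : Type) {L : Type} [Field k] [Field L] [Algebra k L]
    {n r : ℕ} (u : Fin r → Fin (n + 1) → L) : ℤ :=
  - ∑ᶠ P : Place k L, ⨅ σ : {σ : Fin r → Fin (n + 1) //
    (Matrix.of fun i j => u i (σ j)).det ≠ 0}, P.ord (Matrix.of fun i j => u i (σ.1 j)).det

/-- The values `f b`, `b ∈ B`, are algebraic over the field generated over `F0` by `U` and the other
values. -/
def Related (F0 : Type) {L A : Type} [Field F0] [Field L] [Algebra F0 L] (U : Set L) (f : A → L)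
    (B : Finset A) : Prop :=
  ∀ b ∈ B, IsAlgebraic (IntermediateField.adjoin F0 (U ∪ f '' {a | a ∉ B})) (f b)

/-- The places of `L` at which the point `x` meets one of the divisors `H t = 0`, `t ∈ T`. -/
def Meets (k : Type) {F L A : Type} [Field k] [Field F] [Field L] [Algebra k L] [Algebra F L]
    {n : ℕ} (d : A → ℕ) (H : A → MvPolynomial (Fin (n + 1)) F) (T : Finset A)
    (x : Fin (n + 1) → L) : Set (Place k L) :=
  {P | ∃ t ∈ T, (d t : ℤ) * pord P x < P.ord (aeval x (H t))}

/-- The inequalities, for the point `x` over the extension `L` of `F`, and the orders `e a`. -/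
def Inequality (k : Type) {F0 F L A : Type} [Field k] [Field F0] [Field F] [Field L] [Algebra k L]
    [Algebra F0 L] [Algebra F L] [IsAlgClosed k] [CharZero k] [IsFF k L]
    {n : ℕ} (V : Set (MvPolynomial (Fin (n + 1)) F0)) (m : ℕ)
    (d e : A → ℕ) (H : A → MvPolynomial (Fin (n + 1)) F) (B T : Finset A) (C : ℕ)
    (x : Fin (n + 1) → L) : Prop :=
  (∑ b ∈ B, ((e b : ℤ) + 1) + ∑ t ∈ T, (e t : ℤ) - 2 * m - 1) * pht k x ≤
    (Meets k d H T x).ncard + canDeg k L + C * Module.finrank F L ∧
  ∃ (w r : ℕ) (u : Fin (r + 1) → Fin (n + 1) → L), r ≤ m ∧ w + B.card ≤ r ∧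
    IsTangentBasis V x u ∧ 0 ≤ spaceHeight k u ∧
    (∑ b ∈ B, (e b : ℤ) + ∑ t ∈ T, (e t : ℤ) - w - r - 1) * pht k x + spaceHeight k u ≤
      (Meets k d H T x).ncard + canDeg k L + C * Module.finrank F L

section

variable {F0 : Type} [Field F0] {n : ℕ}

theorem dimB {V : Set (MvPolynomial (Fin (n + 1)) F0)} {m : ℕ} (h : DimLE V m) :
    Pool.Agent.K6.H80.LV.DimB F0 (fun _ : Fin (n + 1) => ()) V m (fun _ => m) := by
  intro Ω _ _ x hx hxV
  obtain ⟨i, -, hi⟩ := hx ()
  have h1 := h Ω x ⟨⟨i, hi⟩, hxV⟩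
  refine ⟨h1, fun s => ?_⟩
  have h2 : x '' {l | (fun _ : Fin (n + 1) => ()) l = s} = Set.range x := by
    ext z
    constructor
    · rintro ⟨l, -, rfl⟩
      exact ⟨l, rfl⟩
    · rintro ⟨l, rfl⟩
      exact ⟨l, rfl, rfl⟩
  rw [h2]
  exact h1

theorem sys {V : Set (MvPolynomial (Fin (n + 1)) F0)}
    {J : Type} [Fintype J] {P : J → MvPolynomial (Fin (n + 1)) F0}
    {h : MvPolynomial (Fin (n + 1)) F0}
    (hh : Mem V P h) : Pool.Agent.K6.H80.BL.SysP (fun _ : Fin (n + 1) => ()) V P h := by
  obtain ⟨e, he⟩ := hh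
  refine ⟨e, fun Ω _ _ x hx hxV => ?_⟩
  obtain ⟨i, -, hi⟩ := hx ()
  exact he Ω x ⟨⟨i, hi⟩, hxV⟩

theorem isMulti {R : Type} [CommSemiring R] {e : ℕ} {f : MvPolynomial (Fin (n + 1)) R}
    (h : f.IsHomogeneous e) :
    Pool.Agent.K6.H80.FV.IsMulti (fun _ : Fin (n + 1) => ()) (fun _ => e) f := by
  classical
  intro I hI s
  have h2 := h (mem_support_iff.1 hI)
  rw [Finsupp.weight_apply, Finsupp.sum_fintype _ _ fun _ => by simp] at h2
  simp only [Pi.one_apply, smul_eq_mul, mul_one] at h2
  rw [← h2]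
  exact Finset.sum_congr (Finset.ext fun _ => by simp) fun _ _ => rfl

theorem po_eq {k L : Type} [Field k] [Field L] [Algebra k L] (x : Fin (n + 1) → L)
    (hx : ∃ i, x i ≠ 0) (P : Place k L) (s : Unit) :
    Pool.Agent.K6.H80.LV.po (fun _ : Fin (n + 1) => ()) P x s = pord P x := by
  obtain ⟨i0, hi0⟩ := hx
  apply le_antisymm
  · obtain ⟨j, hj0, hj⟩ := exists_pord P ⟨i0, hi0⟩
    rw [← hj]
    exact Pool.Agent.K6.H80.LV.po_le (β := fun _ : Fin (n + 1) => ()) P (x := x) (j := j) hj0
  · obtain ⟨j, h1, h2, h3⟩ := Pool.Agent.K6.H80.LV.exists_po (β := fun _ : Fin (n + 1) => ()) P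
      (x := x) (j0 := i0) hi0
    have h4 : Pool.Agent.K6.H80.LV.po (fun _ : Fin (n + 1) => ()) P x s =
        Pool.Agent.K6.H80.LV.po (fun _ : Fin (n + 1) => ()) P x () := rfl
    rw [h4, ← h3]
    exact pord_le P h2

end

section

set_option linter.unusedSectionVars false

variable {k L : Type} [Field k] [Field L] [Algebra k L] [IsAlgClosed k] [CharZero k] [IsFF k L]
  {n : ℕ}

theorem bht_eq (x : Fin (n + 1) → L) (hx : ∃ i, x i ≠ 0) (s : Unit) :
    Pool.Agent.K6.H80.LV.bht k (fun _ : Fin (n + 1) => ()) x s = pht k x := by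
  unfold Pool.Agent.K6.H80.LV.bht pht
  congr 1
  exact finsum_congr fun P => po_eq x hx P s

theorem lo_eq {x : Fin (n + 1) → L} (hx : ∃ i, x i ≠ 0) {r : ℕ} {u : Fin r → Fin (n + 1) → L}
    (hu : LinearIndependent L u) (P : Place k L) :
    Pool.Agent.K6.H80.FV.lo (fun _ : Fin (n + 1) => ()) P x u =
      (⨅ σ : {σ : Fin r → Fin (n + 1) // (Matrix.of fun i j => u i (σ j)).det ≠ 0},
        P.ord (Matrix.of fun i j => u i (σ.1 j)).det) - r * pord P x := by
  obtain ⟨τ0, hτ0⟩ := Pool.Agent.TH145.GC.exists_minor u hu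
  have hne : Nonempty {σ : Fin r → Fin (n + 1) // (Matrix.of fun i j => u i (σ j)).det ≠ 0} :=
    ⟨⟨τ0, hτ0⟩⟩
  have h1 : ∀ τ : Fin r → Fin (n + 1), ∑ j : Fin r, Pool.Agent.K6.H80.LV.po
      (fun _ : Fin (n + 1) => ()) P x ((fun _ : Fin (n + 1) => ()) (τ j)) = r * pord P x := by
    intro τ
    rw [Finset.sum_congr rfl fun j _ => po_eq x hx P _, Finset.sum_const, Finset.card_univ,
      Fintype.card_fin, nsmul_eq_mul]
  unfold Pool.Agent.K6.H80.FV.lo
  apply le_antisymm
  · obtain ⟨τ, hτ⟩ := exists_eq_ciInf_of_finite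
      (f := fun τ : {τ : Fin r → Fin (n + 1) // (Matrix.of fun i j => u i (τ j)).det ≠ 0} =>
        P.ord (Matrix.of fun i j => u i (τ.1 j)).det)
    rw [← hτ, ← h1 τ.1]
    exact ciInf_le (Finite.bddBelow_range _) τ
  · refine le_ciInf fun τ => ?_
    rw [h1 τ.1]
    exact sub_le_sub_right (ciInf_le (Finite.bddBelow_range _) τ) _

theorem sht_eq {x : Fin (n + 1) → L} {i : Fin (n + 1)} (hx : x i = 1) {r : ℕ}
    {u : Fin r → Fin (n + 1) → L} (hu : LinearIndependent L u) :
    Pool.Agent.K6.H80.FV.sht k (fun _ : Fin (n + 1) => ()) x u =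
      spaceHeight k u - r * pht k x := by
  have hx0 : ∃ i, x i ≠ 0 := ⟨i, by rw [hx]; exact one_ne_zero⟩
  have h1 := Pool.Agent.K6.H80.FV.lo_finite (k := k) (β := fun _ : Fin (n + 1) => ()) (x := x)
    (c := fun _ => i) (fun _ => by rw [hx]; exact one_ne_zero) (fun _ => rfl) hu
  have h2 : {P : Place k L | pord P x ≠ 0}.Finite := by
    refine (Pool.Agent.K6.H80.LV.po_finite (k := k) (β := fun _ : Fin (n + 1) => ()) (x := x)
      (s := ()) (j0 := i) (by rw [hx]; exact one_ne_zero) rfl).subset fun P hP => ?_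
    rw [Set.mem_ofPred_eq, po_eq x hx0]
    exact hP
  have h3 : {P : Place k L | (r : ℤ) * pord P x ≠ 0}.Finite :=
    h2.subset fun P hP => right_ne_zero_of_mul hP
  unfold Pool.Agent.K6.H80.FV.sht spaceHeight pht
  have h4 : ∀ P : Place k L, (⨅ σ : {σ : Fin r → Fin (n + 1) //
      (Matrix.of fun i j => u i (σ j)).det ≠ 0}, P.ord (Matrix.of fun i j => u i (σ.1 j)).det) =
      Pool.Agent.K6.H80.FV.lo (fun _ : Fin (n + 1) => ()) P x u + r * pord P x := by
    intro P
    rw [lo_eq hx0 hu]
    ring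
  rw [finsum_congr h4, finsum_add_distrib h1 h3, ← mul_finsum]
  ring

end

theorem dim_space {F0 : Type} [Field F0] (n : ℕ) :
    DimLE (∅ : Set (MvPolynomial (Fin (n + 1)) F0)) n := by
  classical
  rintro Ω _ _ x ⟨⟨i0, hi0⟩, -⟩
  obtain ⟨G, hG⟩ : ∃ G, G = IntermediateField.adjoin F0 (Set.range x) := ⟨_, rfl⟩
  rw [← hG]
  have hxG : ∀ i, x i ∈ G := fun i => by
    rw [hG]; exact IntermediateField.subset_adjoin _ _ ⟨i, rfl⟩
  obtain ⟨y, hy⟩ : ∃ y : Fin (n + 1) → G, ∀ i, (y i : Ω) = x i :=
    ⟨fun i => ⟨x i, hxG i⟩, fun _ => rfl⟩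
  obtain ⟨U, hU⟩ : ∃ U : Finset (Fin (n + 1)), U = Finset.univ.erase i0 := ⟨_, rfl⟩
  have htop : IntermediateField.adjoin F0 (y '' (U : Set (Fin (n + 1)))) = ⊤ := by
    rw [eq_top_iff]
    rintro ⟨z, hz⟩ -
    have h2 : G ≤ (IntermediateField.adjoin F0 (y '' (U : Set (Fin (n + 1))))).map G.val := by
      conv_lhs => rw [hG]
      rw [IntermediateField.adjoin_le_iff]
      rintro _ ⟨i, rfl⟩
      by_cases hi : i ∈ U
      · exact ⟨y i, IntermediateField.subset_adjoin _ _ ⟨i, hi, rfl⟩, hy i⟩
      · have h3 : i = i0 := by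
          by_contra h
          exact hi (by rw [hU]; exact Finset.mem_erase.2 ⟨h, Finset.mem_univ _⟩)
        rw [h3, hi0]
        exact one_mem _
    obtain ⟨w, hw, hwz⟩ := h2 hz
    have h4 : w = ⟨z, hz⟩ := Subtype.ext hwz
    rw [← h4]
    exact hw
  have halg : Algebra.IsAlgebraic (Algebra.adjoin F0 (y '' (U : Set (Fin (n + 1))))) G := by
    refine ⟨fun f => IntermediateField.isAlgebraic_adjoin_iff.1 ?_⟩
    have h5 : f ∈ IntermediateField.adjoin F0 (y '' (U : Set (Fin (n + 1)))) := by
      rw [htop]; trivial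
    exact isAlgebraic_algebraMap (⟨f, h5⟩ :
      IntermediateField.adjoin F0 (y '' (U : Set (Fin (n + 1)))))
  have h7 := Algebra.IsAlgebraic.trdeg_le_cardinalMk (R := F0) (y '' (U : Set (Fin (n + 1))))
  refine h7.trans ?_
  have hUf : (y '' (U : Set (Fin (n + 1)))).Finite := (Finset.finite_toSet U).image _
  have hUc : (y '' (U : Set (Fin (n + 1)))).ncard ≤ n := by
    refine (Set.ncard_image_le (Finset.finite_toSet U)).trans ?_
    rw [Set.ncard_coe_finset, hU, Finset.card_erase_of_mem (Finset.mem_univ _), Finset.card_univ,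
      Fintype.card_fin]
    exact le_rfl
  rw [← Set.cast_ncard hUf]
  exact_mod_cast hUc

/-- Finitely many of the factors suffice. -/
theorem exists_factors {F0 : Type} [Field F0] {n : ℕ} (V : Set (MvPolynomial (Fin (n + 1)) F0))
    {J : Type} [Fintype J] (P : J → MvPolynomial (Fin (n + 1)) F0)
    (d e : ℕ) : ∃ G : Finset (MvPolynomial (Fin (n + 1)) F0), (∀ g ∈ G, Factor V P d e g) ∧
      ∀ (Ω : Type) [Field Ω] [Algebra F0 Ω] (x : Fin (n + 1) → Ω),
        Free V P d e x → ∃ g ∈ G, aeval x g ≠ 0 := by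
  classical
  -- the monomials
  obtain ⟨B, hB⟩ : ∃ B : Set (Fin (n + 1) →₀ ℕ), B = {I | ∀ q, I q ≤ d} := ⟨_, rfl⟩
  have hBf : B.Finite := by
    have h1 : B ⊆ Set.Iic (Finsupp.equivFunOnFinite.symm fun _ : Fin (n + 1) => d) := by
      intro I hI q
      rw [hB] at hI
      exact hI q
    exact (Set.finite_Iic _).subset h1
  have h1 : {g | Factor V P d e g} ⊆
      (Submodule.span F0 ((fun I => (monomial I (1 : F0) : MvPolynomial (Fin (n + 1)) F0)) '' B) :
        Set (MvPolynomial (Fin (n + 1)) F0)) := by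
    rintro g ⟨⟨δ, hδ, hd⟩, -⟩
    rw [g.as_sum]
    refine Submodule.sum_mem _ fun I hI => ?_
    have h2 : (monomial I (g.coeff I) : MvPolynomial (Fin (n + 1)) F0) =
        g.coeff I • monomial I (1 : F0) := by
      rw [smul_monomial, smul_eq_mul, mul_one]
    rw [h2]
    refine Submodule.smul_mem _ _ (Submodule.subset_span ⟨I, ?_, rfl⟩)
    rw [hB]
    intro q
    have h3 := hδ (mem_support_iff.1 hI)
    rw [Finsupp.weight_apply, Finsupp.sum_fintype _ _ fun _ => by simp] at h3
    simp only [Pi.one_apply, smul_eq_mul, mul_one] at h3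
    have h5 := Finset.single_le_sum (f := fun i => I i) (fun _ _ => Nat.zero_le _)
      (Finset.mem_univ q)
    omega
  have h2 : (Submodule.span F0 ((fun I => (monomial I (1 : F0) : MvPolynomial (Fin (n + 1)) F0)) ''
      B)).FG := Submodule.fg_span (hBf.image _)
  have h3 : (Submodule.span F0 {g | Factor V P d e g}).FG :=
    h2.of_le (Submodule.span_le.2 h1)
  obtain ⟨G, hG1, hG2⟩ := (Submodule.fg_span_iff_fg_span_finset_subset _).1 h3
  refine ⟨G, fun g hg => hG1 hg, fun Ω _ _ x ⟨g, hg, hgx⟩ => ?_⟩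
  by_contra hcon
  push Not at hcon
  apply hgx
  have h4 : g ∈ Submodule.span F0 (G : Set (MvPolynomial (Fin (n + 1)) F0)) := by
    rw [← hG2]
    exact Submodule.subset_span hg
  have h5 : Submodule.span F0 (G : Set (MvPolynomial (Fin (n + 1)) F0)) ≤
      LinearMap.ker (aeval x : MvPolynomial (Fin (n + 1)) F0 →ₐ[F0] Ω).toLinearMap := by
    rw [Submodule.span_le]
    intro g hg
    exact hcon g hg
  exact h5 h4

theorem result :
    -- the dimension of projective space
    (∀ (F0 : Type) [Field F0] (n : ℕ), DimLE (∅ : Set (MvPolynomial (Fin (n + 1)) F0)) n) ∧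
    -- the height inequality
    ∀ {k0 k F0 F : Type} [Field k0] [Field k] [Field F0] [Field F] [IsAlgClosed k]
      [CharZero k] [Algebra k0 k] [Algebra k F] [Algebra k0 F] [IsScalarTower k0 k F]
      [Algebra k0 F0] [Algebra F0 F] [IsScalarTower k0 F0 F] [IsFF k F]
      (_ : ∃ U : Finset F0, IntermediateField.adjoin k0 (U : Set F0) = ⊤)
      {n m : ℕ} (V : Set (MvPolynomial (Fin (n + 1)) F0))
      (_ : ∀ f ∈ V, ∃ i, f.IsHomogeneous i) (_ : DimLE V m)
      -- the linear systems
      {A : Type} [Fintype A] (d : A → ℕ) {J : A → Type} [∀ a, Fintype (J a)]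
      (G : A → MvPolynomial (Fin (n + 1)) F0) (P : ∀ a, J a → MvPolynomial (Fin (n + 1)) F0)
      (_ : ∀ a, (G a).IsHomogeneous (d a)) (_ : ∀ a j, (P a j).IsHomogeneous (d a))
      -- the generic members
      (c : ∀ a, J a → F) (_ : AlgebraicIndependent F0 (fun p : (Σ a, J a) => c p.1 p.2))
      (H : A → MvPolynomial (Fin (n + 1)) F)
      (_ : ∀ a, H a = map (algebraMap F0 F) (G a) +
        ∑ j, C (c a j) * map (algebraMap F0 F) (P a j)),
      ∃ C : ℕ, ∀ (L : Type) [Field L] [Algebra k L] [IsFF k L] [Algebra F L] [Algebra F0 L]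
        [IsScalarTower k F L] [IsScalarTower F0 F L] [FiniteDimensional F L]
        (x : Fin (n + 1) → L), IsPoint V x → ∀ (B T : Finset A), Disjoint B T →
        Related F0 (Set.range x) (fun a => aeval x (H a)) B → (∀ t ∈ T, aeval x (H t) ≠ 0) →
        ∀ e : A → ℕ, (∀ a, (a ∈ B ∨ a ∈ T) → Free V (P a) (d a) (e a) x) →
        Inequality k V m d e H B T C x := by
  classical
  refine ⟨fun F0 _ n => dim_space n,
    fun {k0 k F0 F} _ _ _ _ _ _ _ _ _ _ _ _ _ _ hfg {n m} V hVh hV {A} _ d {J} _ G P hG hPh c hind H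
      hHF => ?_⟩
  choose Gf hGf1 hGf2 using fun (a : A) (e : ℕ) => exists_factors V (P a) (d a) e
  -- the constant
  have key : ∀ ι : Fin (n + 1) × Finset A × Finset A ×
      (Σ ε : (∀ a, Fin (d a + 1)), ∀ a, {g // g ∈ insert 1 (Gf a (ε a))}), ∃ C : ℕ,
      Disjoint ι.2.1 ι.2.2.1 → (∀ a, (a ∈ ι.2.1 ∨ a ∈ ι.2.2.1) →
        (ι.2.2.2.2 a).1 ∈ Gf a (ι.2.2.2.1 a)) →
      ∀ (L : Type) [Field L] [Algebra k L] [Algebra F L] [Algebra F0 L]
      [IsScalarTower k F L] [IsScalarTower F0 F L] [FiniteDimensional F L] (x : Fin (n + 1) → L),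
      (∀ _ : Unit, x ι.1 = 1) → (∀ f ∈ V, aeval x f = 0) →
      (∀ a, (a ∈ ι.2.1 ∨ a ∈ ι.2.2.1) → aeval x (ι.2.2.2.2 a).1 ≠ 0) →
      (∀ t ∈ ι.2.2.1, aeval x (H t) ≠ 0) →
      (∀ b ∈ ι.2.1, IsAlgebraic (IntermediateField.adjoin F0
        (Set.range x ∪ (fun a => aeval x (H a)) '' {a | a ∉ ι.2.1})) (aeval x (H b))) →
      Pool.Agent.K6.H80.BL.Concl k (fun _ : Fin (n + 1) => ()) (fun a _ => d a)
        (fun a _ => (ι.2.2.2.1 a : ℕ)) H V m (fun _ => m) ι.2.1 ι.2.2.1 C x := by
    rintro ⟨i, B, T, ε, g⟩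
    by_cases h : Disjoint B T ∧ ∀ a, (a ∈ B ∨ a ∈ T) → (g a).1 ∈ Gf a (ε a)
    · obtain ⟨C, hC⟩ := Pool.Agent.K6.H80.BL.chart (k := k) (β := fun _ : Fin (n + 1) => ())
        (c := fun _ => i) (dg := fun a _ => d a) (eg := fun a _ => (ε a : ℕ)) (m := m)
        (μ := fun _ => m) hfg (fun _ => rfl) V (fun f hf => by
          obtain ⟨i, hi⟩ := hVh f hf
          exact ⟨fun _ => i, isMulti hi⟩) (dimB hV) G (fun a => isMulti (hG a)) P
        (fun a j => isMulti (hPh a j)) (fun a => (g a).1) c hind hHF B T h.1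
        (fun a ha I hI => sys ((hGf1 a (ε a) _ (h.2 a ha)).2 I (by
          refine Eq.trans ?_ ((Pool.Agent.K6.H80.LV.st_two (fun _ => rfl) hI) ()).1
          exact Finset.sum_congr (Finset.ext fun _ => by simp) fun _ _ => rfl) (by
          refine le_trans (le_of_eq ?_) ((Pool.Agent.K6.H80.LV.st_two (fun _ => rfl) hI) ()).2
          rw [Set.ncard_eq_toFinset_card']
          congr 1
          ext i
          simp)))
      exact ⟨C, fun _ _ => hC⟩
    · exact ⟨0, fun h1 h2 => absurd ⟨h1, h2⟩ h⟩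
  choose C0 hC0 using key
  obtain ⟨C, hCle⟩ := Finite.exists_le C0
  refine ⟨C, ?_⟩
  intro L _ _ _ _ _ _ _ _ x hx B T hBT hB hT e hfree
  obtain ⟨⟨i, hi⟩, hxV⟩ := hx
  have hx0 : ∃ i, x i ≠ 0 := ⟨i, by rw [hi]; exact one_ne_zero⟩
  -- the orders and the forms
  obtain ⟨ε, hε⟩ : ∃ ε : ∀ a, Fin (d a + 1), ∀ a, (a ∈ B ∨ a ∈ T) → (ε a : ℕ) = e a := by
    refine ⟨fun a => if h : e a < d a + 1 then ⟨e a, h⟩ else 0, fun a ha => ?_⟩
    obtain ⟨g, ⟨⟨δ, -, hδ⟩, -⟩, -⟩ := hfree a ha
    dsimp only
    rw [dif_pos (by omega)]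
  have hg : ∀ a, ∃ g : {g // g ∈ insert 1 (Gf a (ε a))}, (a ∈ B ∨ a ∈ T) →
      g.1 ∈ Gf a (ε a) ∧ aeval x g.1 ≠ 0 := by
    intro a
    by_cases ha : a ∈ B ∨ a ∈ T
    · have h1 := hfree a ha
      rw [← hε a ha] at h1
      obtain ⟨g, hg, hgx⟩ := hGf2 a (ε a) L x h1
      exact ⟨⟨g, Finset.mem_insert_of_mem hg⟩, fun _ => ⟨hg, hgx⟩⟩
    · exact ⟨⟨1, Finset.mem_insert_self _ _⟩, fun h => absurd h ha⟩
  choose g hg using hg
  have hsumB : ∑ b ∈ B, ((ε b : ℕ) : ℤ) = ∑ b ∈ B, (e b : ℤ) :=
    Finset.sum_congr rfl fun b hb => by rw [hε b (Or.inl hb)]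
  have hsumT : ∑ b ∈ T, ((ε b : ℕ) : ℤ) = ∑ b ∈ T, (e b : ℤ) :=
    Finset.sum_congr rfl fun b hb => by rw [hε b (Or.inr hb)]
  have hconc := (hC0 ⟨i, B, T, ε, g⟩ hBT (fun a ha => (hg a ha).1) L x (fun _ => hi) hxV
    (fun a ha => (hg a ha).2) hT hB).mono (hCle _)
  obtain ⟨r, u, w, hr, hu, hpx, htan, hw, h1, h2⟩ := hconc
  have hS : ∀ f : Unit → ℤ, ∑ s, f s = f () := fun f => Fintype.sum_unique f
  have hSn : ∀ f : Unit → ℕ, ∑ s, f s = f () := fun f => Fintype.sum_unique f
  have hMt : Pool.Agent.K6.H80.FV.Mt k (fun _ : Fin (n + 1) => ()) (fun a _ => d a) H T x =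
      Meets k d H T x := by
    ext P
    refine exists_congr fun t => and_congr_right fun _ => ?_
    rw [hS, po_eq x hx0]
  have hh : 0 ≤ pht k x := by
    rw [← bht_eq x hx0 ()]
    exact Pool.Agent.K6.H80.FV.bht_nonneg (c := fun _ => i) (fun _ => hi) (fun _ => rfl) ()
  dsimp only at h1 h2 hw
  rw [hMt, hS, bht_eq x hx0] at h1 h2
  rw [hSn] at hw
  push_cast at h1 h2
  rw [hsumB, hsumT] at h1 h2
  have key : ∀ (N : ℕ) (u : Fin N → Fin (n + 1) → L), N = r + 1 → LinearIndependent L u →
      (∀ s, Pool.Agent.K6.H80.LV.px (fun _ : Fin (n + 1) => ()) x s ∈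
        Submodule.span L (Set.range u)) →
      (∀ i, ∀ f ∈ V, ∑ l, aeval x (pderiv l f) * u i l = 0) →
      (∑ a ∈ B, (e a : ℤ) + ∑ a ∈ T, (e a : ℤ) - w ()) * pht k x +
        Pool.Agent.K6.H80.FV.sht k (fun _ : Fin (n + 1) => ()) x u ≤
          (Meets k d H T x).ncard + canDeg k L + C * Module.finrank F L →
      ∃ u : Fin (r + 1) → Fin (n + 1) → L, IsTangentBasis V x u ∧ 0 ≤ spaceHeight k u ∧
        (∑ b ∈ B, (e b : ℤ) + ∑ t ∈ T, (e t : ℤ) - w () - r - 1) * pht k x +
          spaceHeight k u ≤ (Meets k d H T x).ncard + canDeg k L + C * Module.finrank F L := by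
    rintro N u rfl hu hpx htan h1
    have hsht := sht_eq (k := k) (x := x) hi (u := u) hu
    have hU0 : 0 ≤ spaceHeight k u := by
      have h3 := Pool.Agent.K6.H80.FV.le_sht (k := k) (β := fun _ : Fin (n + 1) => ())
        (c := fun _ => i) (x := x) (fun _ => hi) (fun _ => rfl) hu (μ := fun _ => r) fun s => by
          refine (Submodule.finrank_map_le _ _).trans ?_
          rw [finrank_span_eq_card hu, Fintype.card_fin]
      rw [hS, bht_eq x hx0, hsht] at h3
      push_cast at h3
      linarith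
    rw [hsht] at h1
    push_cast at h1
    refine ⟨u, ⟨hu, ?_, htan⟩, hU0, ?_⟩
    · have h3 : Pool.Agent.K6.H80.LV.px (fun _ : Fin (n + 1) => ()) x () = x := by
        funext l
        rw [Pool.Agent.K6.H80.LV.px_apply, if_pos rfl]
      have h4 := hpx ()
      rwa [h3] at h4
    · refine le_trans (le_of_eq ?_) h1
      ring
  obtain ⟨u', hu1, hu2, hu3⟩ := key _ u (by simp) hu hpx htan h1
  refine ⟨?_, w (), r, u', hr, hw, hu1, hu2, hu3⟩
  refine le_trans (mul_le_mul_of_nonneg_right ?_ hh) h2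
  have h3 : ((w () : ℕ) : ℤ) + B.card ≤ r := by exact_mod_cast hw
  have h4 : (r : ℤ) ≤ m := by exact_mod_cast hr
  rw [Finset.sum_add_distrib, Finset.sum_const, nsmul_eq_mul, mul_one]
  linarith

end Pool.Agent.Results.MP_4dacf8_ag.BaseLoci
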