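import Pool.Agent.K6.H80.FC.Base
import Pool.Agent.K6.H80.LV.Lin

/-!
MP_4dacf8_ag, Q1: Vojta's height inequality, with constant one and with the truncated counting
function, for all algebraic points of all pairs of a complete intersection and a divisor in it, in an
arbitrary projective variety, outside a set of high codimension in their moduli space.

Let `F` be a function field of one variable over an algebraically closed field `k` of characteristic
`0`, and `F0` a subfield of `F` that is finitely generated over a subfield `k0` of `k`. Let `V` be a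
closed subvariety of projective space of dimension `n`, given by forms over `F0` (it need not be
isotrivial), and `m` at least the dimension of `V`. For `a` in a finite set `A`, let `H_a` be a member
of a linear system on `V` of forms of degree `d_a`: `H_a = G_a + ∑ c_(a,j) P_(a,j)` with coefficients
`c_(a,j)` in `F` and forms `G_a`, `P_(a,j)` over `F0` such that, on `V`, all the monomials of degree
`d_a` with at most two variables are linear combinations of the `P_(a,j)`; for instance, the `P_(a,j)`
are all monomials of degree `d_a`, and the `H_a` are arbitrary forms over `F`.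

It is not assumed that the `H_a` are generic, but the bound depends on the codimension of `(H_a)` in
the moduli space with respect to `F0`: let `e` be a number such that the coefficients `c_(a,j)`
generate a field over `F0` whose transcendence degree is at least their number minus `e`. In other
words, `(H_a)` does not lie in a closed subset over `F0` of codimension more than `e` of the affine
space of all `(H_a)`.

Let `x` be a point of `V` over a finite extension `L` of `F`, with one of the coordinates equal to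
`1`. A subset `B` of `A` is *related* at `x` if, for `b ∈ B`, the value `H_b(x)` is algebraic over the
field generated over `F0` by `x` and the `H_a(x)`, `a ∉ B`. For instance, `B` is related if
`H_b(x) = 0` for all `b ∈ B`, that is, if `x` is a point of the complete intersection
`X = V ∩ {H_b = 0, b ∈ B}`; if a matrix of different members of the family has a small rank at `x`,
there is a related set whose number of elements is the expected codimension of the degeneracy locus;
and if the values `H_a(x)` generate a field of transcendence degree at most `N` over `F0(x)`, there is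
a related set with at least `|A| - N` elements.

Theorem. There is a constant `C`, which does not depend on `L` and `x`, such that, for all such `x`,
all related sets `B`, and all sets `T` disjoint from `B` with `H_t(x) ≠ 0` for `t ∈ T`,

`(∑_(b ∈ B) (d_b + 1) + ∑_(t ∈ T) d_t - 2 m - 1 - e) h(x) ≤ N_T(x) + 2 g(L) - 2 + C [L : F]`,

where `h(x)` is the height of `x` with respect to `L`, and `N_T(x)` is the number of the places of `L`
at which `x` meets one of the divisors `H_t = 0`, `t ∈ T`, each place being counted once.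

So the conjecture, with constant one and `Z = D`, holds for the pair of the complete intersection
`X` of the `H_b`, `b ∈ B`, in `V` and of the boundary `D` of the `H_t`, `t ∈ T`, in `X`, for all
`(H_a)` outside of a countable union (if `F0` is countable) of closed subsets of codimension at least
`∑_(b ∈ B) (d_b + 1) + ∑_(t ∈ T) d_t - 2 m - 1` of the moduli space; this codimension tends to
infinity with the degrees. For example, all hypersurfaces of degree `d` in projective space, outside
of codimension `d - 2 n`, satisfy `h(x) ≤ 2 g(L) - 2 + C [L : F]` for all algebraic points `x`. Here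
`d - 2 n` cannot be replaced by more than `d - 2 n + 3`, the codimension of the set of the
hypersurfaces that contain a line. In the same way, all complements of hypersurfaces `D` of degree `d`
satisfy `h(x) ≤ N_D(x) + 2 g(L) - 2 + C [L : F]` for all algebraic points `x` outside of `D`, outside
of codimension `d - 2 n - 1`. Neither `X` nor `D` need be smooth, or with normal crossings: all
singularities occur that appear in codimension at most `e`. Neither the degree of `L` over `F` nor the
position of `x` is restricted. For `e = 0` (generic coefficients), compare the starting results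
`GenericPairs`, `GenericLogPairs`, and `LinearSystemsOnProducts`.

More precisely, there are `w`, an `r ≤ m` with `w + |B| ≤ r + e`, and a space `U` of dimension `r + 1`
between the line of the position vector of `x` and the tangent space at `x` of the cone over `V`, such
that

`(∑_(a ∈ B ∪ T) d_a - w - r - 1) h(x) + h(U) ≤ N_T(x) + 2 g(L) - 2 + C [L : F]`,

where `h(U) ≥ 0` is the height of the Plücker coordinates of `U`. If `V` is smooth of dimension `m`
along `x` and `r = m`, then `U` is the tangent space, and `h(U) - (m + 1) h(x)` is the height with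
respect to the canonical class `K_V`. For a complete intersection `X` of `B` and the boundary `D` of
`T` in it, the left hand side is then the height with respect to `K_X + D - w H`, `w ≤ dim X + e`,
where `H` is the class of a hyperplane.

Proof. Let a subfamily of the coefficients be a transcendence basis, and let the others, at most `e`
in number, be the `c_q`. The derivations dual to the coefficients of the basis move `x`, the `H_t(x)`
and the `c_q`. So we work in the space of the triples of a tangent vector at `x`, a vector `(z_t)` and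
a vector `(ζ_q)`, whose dimension is larger by `e`. There, the vector fields given by the relations
`x_c (x_c^i x_l^(d-i)) = x_l (x_c^(i+1) x_l^(d-i-1))` between the monomials satisfy the same
identities as for generic coefficients; their minors give the inequality.

Here `canDeg k L` is the canonical degree `2 g(L) - 2`, and `pht k x = h(x)` is minus the sum over all
places of `L` of the minimum `pord P x` of the orders of the coordinates.
-/

set_option autoImplicit false

namespace Pool.Agent.Results.MP_4dacf8_ag.CodimensionInModuli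

open FF MvPolynomial Pool.Agent.W603.LV Pool.Agent.W603.PV

section

variable {F0 : Type} [Field F0] {n : ℕ} (V : Set (MvPolynomial (Fin (n + 1)) F0))

/-- `x` is a point of `f = 0`, `f ∈ V`, over a field `Ω`, with one of the coordinates equal to
`1`. -/
def IsPoint {Ω : Type} [Field Ω] [Algebra F0 Ω] (x : Fin (n + 1) → Ω) : Prop :=
  (∃ i, x i = 1) ∧ ∀ f ∈ V, aeval x f = 0

/-- The variety `f = 0`, `f ∈ V`, in projective space has dimension at most `m`: the coordinates of
the points in extension fields of `F0` generate fields of transcendence degree at most `m`. -/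
def DimLE (m : ℕ) : Prop :=
  ∀ (Ω : Type) [Field Ω] [Algebra F0 Ω] (x : Fin (n + 1) → Ω), IsPoint V x →
    Algebra.trdeg F0 (IntermediateField.adjoin F0 (Set.range x)) ≤ m

/-- On the variety `f = 0`, `f ∈ V`, the monomial `I` is a linear combination of the `P j`. -/
def Mem {J : Type} [Fintype J] (P : J → MvPolynomial (Fin (n + 1)) F0) (I : Fin (n + 1) →₀ ℕ) :
    Prop :=
  ∃ b : J → F0, ∀ (Ω : Type) [Field Ω] [Algebra F0 Ω] (x : Fin (n + 1) → Ω), IsPoint V x →
    aeval x (monomial I (1 : F0)) = ∑ j, algebraMap F0 Ω (b j) * aeval x (P j)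

/-- The `H a` are members of linear systems on `V` over `F0` of forms of the degrees `d a`, and the
codimension of `(H a)` in the moduli space over `F0` is at most `e`: the transcendence degree of the
field of the coefficients is at least the number of the coefficients minus `e`. -/
def Members {F A : Type} [Field F] [Algebra F0 F] (d : A → ℕ) (e : ℕ)
    (H : A → MvPolynomial (Fin (n + 1)) F) : Prop :=
  ∃ (J : A → Type) (_ : ∀ a, Fintype (J a)) (G : A → MvPolynomial (Fin (n + 1)) F0)
    (P : ∀ a, J a → MvPolynomial (Fin (n + 1)) F0) (c : ∀ a, J a → F),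
    (∀ a, (G a).IsHomogeneous (d a)) ∧ (∀ a j, (P a j).IsHomogeneous (d a)) ∧
    (∀ a (I : Fin (n + 1) →₀ ℕ), ∑ i, I i = d a → {i | I i ≠ 0}.ncard ≤ 2 → Mem V (P a) I) ∧
    Cardinal.mk (Σ a, J a) ≤ Algebra.trdeg F0
      (IntermediateField.adjoin F0 (Set.range fun p : (Σ a, J a) => c p.1 p.2)) + e ∧
    ∀ a, H a = map (algebraMap F0 F) (G a) + ∑ j, C (c a j) * map (algebraMap F0 F) (P a j)

/-- The vectors `u i` are a basis of a space that contains the position vector of the point `x` and
is contained in the tangent space at `x` of the cone over `V`. -/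
def IsTangentBasis {L : Type} [Field L] [Algebra F0 L] (x : Fin (n + 1) → L) {r : ℕ}
    (u : Fin r → Fin (n + 1) → L) : Prop :=
  LinearIndependent L u ∧ x ∈ Submodule.span L (Set.range u) ∧
  ∀ i, ∀ f ∈ V, ∑ l, aeval x (pderiv l f) * u i l = 0

end

/-- The height of the space with the basis `u`: the height of its Plücker coordinates. -/
noncomputable def spaceHeight (k : Type) {L : Type} [Field k] [Field L] [Algebra k L]
    {n r : ℕ} (u : Fin r → Fin (n + 1) → L) : ℤ :=
  - ∑ᶠ P : Place k L, ⨅ σ : {σ : Fin r → Fin (n + 1) //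
    (Matrix.of fun i j => u i (σ j)).det ≠ 0}, P.ord (Matrix.of fun i j => u i (σ.1 j)).det

/-- The values `f b`, `b ∈ B`, are algebraic over the field generated over `F0` by `U` and the other
values. -/
def Related (F0 : Type) {L A : Type} [Field F0] [Field L] [Algebra F0 L] (U : Set L) (f : A → L)
    (B : Finset A) : Prop :=
  ∀ b ∈ B, IsAlgebraic (IntermediateField.adjoin F0 (U ∪ f '' {a | a ∉ B})) (f b)

/-- The places of `L` at which the point `x` meets one of the divisors `H t = 0`, `t ∈ T`. -/
def Meets (k : Type) {F L A : Type} [Field k] [Field F] [Field L] [Algebra k L] [Algebra F L]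
    {n : ℕ} (d : A → ℕ) (H : A → MvPolynomial (Fin (n + 1)) F) (T : Finset A)
    (x : Fin (n + 1) → L) : Set (Place k L) :=
  {P | ∃ t ∈ T, (d t : ℤ) * pord P x < P.ord (aeval x (H t))}

/-- The inequalities, for the point `x` over the extension `L` of `F`. -/
def Inequality (k : Type) {F0 F L A : Type} [Field k] [Field F0] [Field F] [Field L] [Algebra k L]
    [Algebra F0 L] [Algebra F L] [IsAlgClosed k] [CharZero k] [IsFF k L]
    {n : ℕ} (V : Set (MvPolynomial (Fin (n + 1)) F0)) (m : ℕ)
    (d : A → ℕ) (e : ℕ) (H : A → MvPolynomial (Fin (n + 1)) F) (B T : Finset A) (C : ℕ)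
    (x : Fin (n + 1) → L) : Prop :=
  (∑ b ∈ B, ((d b : ℤ) + 1) + ∑ t ∈ T, (d t : ℤ) - 2 * m - 1 - e) * pht k x ≤
    (Meets k d H T x).ncard + canDeg k L + C * Module.finrank F L ∧
  ∃ (w r : ℕ) (u : Fin (r + 1) → Fin (n + 1) → L), r ≤ m ∧ w + B.card ≤ r + e ∧
    IsTangentBasis V x u ∧ 0 ≤ spaceHeight k u ∧
    (∑ b ∈ B, (d b : ℤ) + ∑ t ∈ T, (d t : ℤ) - w - r - 1) * pht k x + spaceHeight k u ≤
      (Meets k d H T x).ncard + canDeg k L + C * Module.finrank F L

section

variable {F0 : Type} [Field F0] {n : ℕ}

theorem dimB {V : Set (MvPolynomial (Fin (n + 1)) F0)} {m : ℕ} (h : DimLE V m) :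
    Pool.Agent.K6.H80.LV.DimB F0 (fun _ : Fin (n + 1) => ()) V m (fun _ => m) := by
  intro Ω _ _ x hx hxV
  obtain ⟨i, -, hi⟩ := hx ()
  have h1 := h Ω x ⟨⟨i, hi⟩, hxV⟩
  refine ⟨h1, fun s => ?_⟩
  have h2 : x '' {l | (fun _ : Fin (n + 1) => ()) l = s} = Set.range x := by
    ext z
    constructor
    · rintro ⟨l, -, rfl⟩
      exact ⟨l, rfl⟩
    · rintro ⟨l, rfl⟩
      exact ⟨l, rfl, rfl⟩
  rw [h2]
  exact h1

theorem sys {V : Set (MvPolynomial (Fin (n + 1)) F0)}
    {J : Type} [Fintype J] {P : J → MvPolynomial (Fin (n + 1)) F0} {I : Fin (n + 1) →₀ ℕ}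
    (h : Mem V P I) : Pool.Agent.K6.H80.LV.Sys (fun _ : Fin (n + 1) => ()) V P I := by
  obtain ⟨e, he⟩ := h
  refine ⟨e, fun Ω _ _ x hx hxV => ?_⟩
  obtain ⟨i, -, hi⟩ := hx ()
  exact he Ω x ⟨⟨i, hi⟩, hxV⟩

theorem isMulti {R : Type} [CommSemiring R] {e : ℕ} {f : MvPolynomial (Fin (n + 1)) R}
    (h : f.IsHomogeneous e) :
    Pool.Agent.K6.H80.FV.IsMulti (fun _ : Fin (n + 1) => ()) (fun _ => e) f := by
  classical
  intro I hI s
  have h2 := h (mem_support_iff.1 hI)
  rw [Finsupp.weight_apply, Finsupp.sum_fintype _ _ fun _ => by simp] at h2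
  simp only [Pi.one_apply, smul_eq_mul, mul_one] at h2
  rw [← h2]
  exact Finset.sum_congr (Finset.ext fun _ => by simp) fun _ _ => rfl

theorem po_eq {k L : Type} [Field k] [Field L] [Algebra k L] (x : Fin (n + 1) → L)
    (hx : ∃ i, x i ≠ 0) (P : Place k L) (s : Unit) :
    Pool.Agent.K6.H80.LV.po (fun _ : Fin (n + 1) => ()) P x s = pord P x := by
  obtain ⟨i0, hi0⟩ := hx
  apply le_antisymm
  · obtain ⟨j, hj0, hj⟩ := exists_pord P ⟨i0, hi0⟩
    rw [← hj]
    exact Pool.Agent.K6.H80.LV.po_le (β := fun _ : Fin (n + 1) => ()) P (x := x) (j := j) hj0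
  · obtain ⟨j, h1, h2, h3⟩ := Pool.Agent.K6.H80.LV.exists_po (β := fun _ : Fin (n + 1) => ()) P
      (x := x) (j0 := i0) hi0
    have h4 : Pool.Agent.K6.H80.LV.po (fun _ : Fin (n + 1) => ()) P x s =
        Pool.Agent.K6.H80.LV.po (fun _ : Fin (n + 1) => ()) P x () := rfl
    rw [h4, ← h3]
    exact pord_le P h2

end

section

set_option linter.unusedSectionVars false

variable {k L : Type} [Field k] [Field L] [Algebra k L] [IsAlgClosed k] [CharZero k] [IsFF k L]
  {n : ℕ}

theorem bht_eq (x : Fin (n + 1) → L) (hx : ∃ i, x i ≠ 0) (s : Unit) :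
    Pool.Agent.K6.H80.LV.bht k (fun _ : Fin (n + 1) => ()) x s = pht k x := by
  unfold Pool.Agent.K6.H80.LV.bht pht
  congr 1
  exact finsum_congr fun P => po_eq x hx P s

theorem lo_eq {x : Fin (n + 1) → L} (hx : ∃ i, x i ≠ 0) {r : ℕ} {u : Fin r → Fin (n + 1) → L}
    (hu : LinearIndependent L u) (P : Place k L) :
    Pool.Agent.K6.H80.FV.lo (fun _ : Fin (n + 1) => ()) P x u =
      (⨅ σ : {σ : Fin r → Fin (n + 1) // (Matrix.of fun i j => u i (σ j)).det ≠ 0},
        P.ord (Matrix.of fun i j => u i (σ.1 j)).det) - r * pord P x := by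
  obtain ⟨τ0, hτ0⟩ := Pool.Agent.TH145.GC.exists_minor u hu
  have hne : Nonempty {σ : Fin r → Fin (n + 1) // (Matrix.of fun i j => u i (σ j)).det ≠ 0} :=
    ⟨⟨τ0, hτ0⟩⟩
  have h1 : ∀ τ : Fin r → Fin (n + 1), ∑ j : Fin r, Pool.Agent.K6.H80.LV.po
      (fun _ : Fin (n + 1) => ()) P x ((fun _ : Fin (n + 1) => ()) (τ j)) = r * pord P x := by
    intro τ
    rw [Finset.sum_congr rfl fun j _ => po_eq x hx P _, Finset.sum_const, Finset.card_univ,
      Fintype.card_fin, nsmul_eq_mul]
  unfold Pool.Agent.K6.H80.FV.lo
  apply le_antisymm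
  · obtain ⟨τ, hτ⟩ := exists_eq_ciInf_of_finite
      (f := fun τ : {τ : Fin r → Fin (n + 1) // (Matrix.of fun i j => u i (τ j)).det ≠ 0} =>
        P.ord (Matrix.of fun i j => u i (τ.1 j)).det)
    rw [← hτ, ← h1 τ.1]
    exact ciInf_le (Finite.bddBelow_range _) τ
  · refine le_ciInf fun τ => ?_
    rw [h1 τ.1]
    exact sub_le_sub_right (ciInf_le (Finite.bddBelow_range _) τ) _

theorem sht_eq {x : Fin (n + 1) → L} {i : Fin (n + 1)} (hx : x i = 1) {r : ℕ}
    {u : Fin r → Fin (n + 1) → L} (hu : LinearIndependent L u) :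
    Pool.Agent.K6.H80.FV.sht k (fun _ : Fin (n + 1) => ()) x u =
      spaceHeight k u - r * pht k x := by
  have hx0 : ∃ i, x i ≠ 0 := ⟨i, by rw [hx]; exact one_ne_zero⟩
  have h1 := Pool.Agent.K6.H80.FV.lo_finite (k := k) (β := fun _ : Fin (n + 1) => ()) (x := x)
    (c := fun _ => i) (fun _ => by rw [hx]; exact one_ne_zero) (fun _ => rfl) hu
  have h2 : {P : Place k L | pord P x ≠ 0}.Finite := by
    refine (Pool.Agent.K6.H80.LV.po_finite (k := k) (β := fun _ : Fin (n + 1) => ()) (x := x)
      (s := ()) (j0 := i) (by rw [hx]; exact one_ne_zero) rfl).subset fun P hP => ?_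
    rw [Set.mem_ofPred_eq, po_eq x hx0]
    exact hP
  have h3 : {P : Place k L | (r : ℤ) * pord P x ≠ 0}.Finite :=
    h2.subset fun P hP => right_ne_zero_of_mul hP
  unfold Pool.Agent.K6.H80.FV.sht spaceHeight pht
  have h4 : ∀ P : Place k L, (⨅ σ : {σ : Fin r → Fin (n + 1) //
      (Matrix.of fun i j => u i (σ j)).det ≠ 0}, P.ord (Matrix.of fun i j => u i (σ.1 j)).det) =
      Pool.Agent.K6.H80.FV.lo (fun _ : Fin (n + 1) => ()) P x u + r * pord P x := by
    intro P
    rw [lo_eq hx0 hu]
    ring
  rw [finsum_congr h4, finsum_add_distrib h1 h3, ← mul_finsum]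
  ring

end

theorem dim_space {F0 : Type} [Field F0] (n : ℕ) :
    DimLE (∅ : Set (MvPolynomial (Fin (n + 1)) F0)) n := by
  classical
  rintro Ω _ _ x ⟨⟨i0, hi0⟩, -⟩
  obtain ⟨G, hG⟩ : ∃ G, G = IntermediateField.adjoin F0 (Set.range x) := ⟨_, rfl⟩
  rw [← hG]
  have hxG : ∀ i, x i ∈ G := fun i => by
    rw [hG]; exact IntermediateField.subset_adjoin _ _ ⟨i, rfl⟩
  obtain ⟨y, hy⟩ : ∃ y : Fin (n + 1) → G, ∀ i, (y i : Ω) = x i :=
    ⟨fun i => ⟨x i, hxG i⟩, fun _ => rfl⟩
  obtain ⟨U, hU⟩ : ∃ U : Finset (Fin (n + 1)), U = Finset.univ.erase i0 := ⟨_, rfl⟩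
  have htop : IntermediateField.adjoin F0 (y '' (U : Set (Fin (n + 1)))) = ⊤ := by
    rw [eq_top_iff]
    rintro ⟨z, hz⟩ -
    have h2 : G ≤ (IntermediateField.adjoin F0 (y '' (U : Set (Fin (n + 1))))).map G.val := by
      conv_lhs => rw [hG]
      rw [IntermediateField.adjoin_le_iff]
      rintro _ ⟨i, rfl⟩
      by_cases hi : i ∈ U
      · exact ⟨y i, IntermediateField.subset_adjoin _ _ ⟨i, hi, rfl⟩, hy i⟩
      · have h3 : i = i0 := by
          by_contra h
          exact hi (by rw [hU]; exact Finset.mem_erase.2 ⟨h, Finset.mem_univ _⟩)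
        rw [h3, hi0]
        exact one_mem _
    obtain ⟨w, hw, hwz⟩ := h2 hz
    have h4 : w = ⟨z, hz⟩ := Subtype.ext hwz
    rw [← h4]
    exact hw
  have halg : Algebra.IsAlgebraic (Algebra.adjoin F0 (y '' (U : Set (Fin (n + 1))))) G := by
    refine ⟨fun f => IntermediateField.isAlgebraic_adjoin_iff.1 ?_⟩
    have h5 : f ∈ IntermediateField.adjoin F0 (y '' (U : Set (Fin (n + 1)))) := by
      rw [htop]; trivial
    exact isAlgebraic_algebraMap (⟨f, h5⟩ :
      IntermediateField.adjoin F0 (y '' (U : Set (Fin (n + 1)))))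
  have h7 := Algebra.IsAlgebraic.trdeg_le_cardinalMk (R := F0) (y '' (U : Set (Fin (n + 1))))
  refine h7.trans ?_
  have hUf : (y '' (U : Set (Fin (n + 1)))).Finite := (Finset.finite_toSet U).image _
  have hUc : (y '' (U : Set (Fin (n + 1)))).ncard ≤ n := by
    refine (Set.ncard_image_le (Finset.finite_toSet U)).trans ?_
    rw [Set.ncard_coe_finset, hU, Finset.card_erase_of_mem (Finset.mem_univ _), Finset.card_univ,
      Fintype.card_fin]
    exact le_rfl
  rw [← Set.cast_ncard hUf]
  exact_mod_cast hUc

theorem result :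
    -- the dimension of projective space
    (∀ (F0 : Type) [Field F0] (n : ℕ), DimLE (∅ : Set (MvPolynomial (Fin (n + 1)) F0)) n) ∧
    -- related sets: zeros, degeneracy loci, small transcendence degree
    (∀ {F0 L A : Type} [Field F0] [Field L] [Algebra F0 L] [Fintype A] [DecidableEq A]
      (U : Set L) (f : A → L),
      (∀ B : Finset A, (∀ b ∈ B, f b = 0) → Related F0 U f B) ∧
      (∀ (p q ρ : ℕ) (e : Fin p × Fin q ↪ A), ρ ≤ p → ρ ≤ q →
        (Matrix.of fun i j => f (e (i, j))).rank ≤ ρ → ∃ (R : Finset (Fin p)) (C : Finset (Fin q)),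
          R.card = ρ ∧ C.card = ρ ∧ Related F0 U f ((Rᶜ ×ˢ Cᶜ).map e)) ∧
      ∀ N : ℕ, Algebra.trdeg (IntermediateField.adjoin F0 U)
        (IntermediateField.adjoin (IntermediateField.adjoin F0 U) (Set.range f)) ≤ N →
          ∃ B : Finset A, Fintype.card A ≤ N + B.card ∧ Related F0 U f B) ∧
    -- the height inequality
    ∀ {k0 k F0 F : Type} [Field k0] [Field k] [Field F0] [Field F] [IsAlgClosed k]
      [CharZero k] [Algebra k0 k] [Algebra k F] [Algebra k0 F] [IsScalarTower k0 k F]
      [Algebra k0 F0] [Algebra F0 F] [IsScalarTower k0 F0 F] [IsFF k F]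
      (_ : ∃ U : Finset F0, IntermediateField.adjoin k0 (U : Set F0) = ⊤)
      {n m : ℕ} (V : Set (MvPolynomial (Fin (n + 1)) F0))
      (_ : ∀ f ∈ V, ∃ i, f.IsHomogeneous i) (_ : DimLE V m)
      {A : Type} [Fintype A] (d : A → ℕ) (e : ℕ) (H : A → MvPolynomial (Fin (n + 1)) F)
      (_ : Members V d e H),
      ∃ C : ℕ, ∀ (L : Type) [Field L] [Algebra k L] [IsFF k L] [Algebra F L] [Algebra F0 L]
        [IsScalarTower k F L] [IsScalarTower F0 F L] [FiniteDimensional F L]
        (x : Fin (n + 1) → L), IsPoint V x → ∀ (B T : Finset A), Disjoint B T →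
        Related F0 (Set.range x) (fun a => aeval x (H a)) B → (∀ t ∈ T, aeval x (H t) ≠ 0) →
        Inequality k V m d e H B T C x := by
  classical
  refine ⟨fun F0 _ n => dim_space n, fun {F0 L A} _ _ _ _ _ U f => ⟨fun B hB b hb => ?_,
    fun p q ρ e hp hq hrk => ?_, fun N hN => ?_⟩,
    fun {k0 k F0 F} _ _ _ _ _ _ _ _ _ _ _ _ _ _ hfg {n m} V hVh hV {A} _ d e H hH => ?_⟩
  · rw [hB b hb]
    exact isAlgebraic_zero
  · obtain ⟨R, C, hR, hC, hM⟩ := Pool.Agent.K6.H80.LV.exists_B_rank (k' := F0) (U := U) _ hrk
      (by rw [Fintype.card_fin]; exact hp) (by rw [Fintype.card_fin]; exact hq)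
    refine ⟨R, C, hR, hC, fun b hb => ?_⟩
    obtain ⟨⟨i, j⟩, hij, rfl⟩ := Finset.mem_map.1 hb
    obtain ⟨hi, hj⟩ := Finset.mem_product.1 hij
    have h1 := hM i j (Finset.mem_compl.1 hi) (Finset.mem_compl.1 hj)
    have h2 := IntermediateField.adjoin.mono F0 _ (U ∪ f '' {a | a ∉ (Rᶜ ×ˢ Cᶜ).map e}) (by
      refine Set.union_subset_union_right _ ?_
      rintro _ ⟨i, j, hij, rfl⟩
      refine ⟨e (i, j), fun h => ?_, rfl⟩
      obtain ⟨⟨i', j'⟩, hij', h⟩ := Finset.mem_map.1 h
      obtain ⟨rfl, rfl⟩ := Prod.mk.injEq .. ▸ e.injective h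
      obtain ⟨hi, hj⟩ := Finset.mem_product.1 hij'
      rcases hij with h | h
      · exact Finset.mem_compl.1 hi h
      · exact Finset.mem_compl.1 hj h) h1
    exact isAlgebraic_algebraMap (⟨_, h2⟩ : IntermediateField.adjoin F0
      (U ∪ f '' {a | a ∉ (Rᶜ ×ˢ Cᶜ).map e}))
  · obtain ⟨B, hB, hBf⟩ := Pool.Agent.K6.H80.LV.exists_B_trdeg (k' := F0) (U := U) f hN
    exact ⟨B, hB, hBf⟩
  · obtain ⟨J, _, G, P, c, hG, hPh, hP, htr, hHF⟩ := hH
    obtain ⟨C, hC⟩ := Pool.Agent.K6.H80.FC.final (k := k) (β := fun _ : Fin (n + 1) => ())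
      (dg := fun a _ => d a) (m := m) (μ := fun _ => m) hfg V (fun f hf => by
        obtain ⟨i, hi⟩ := hVh f hf
        exact ⟨fun _ => i, isMulti hi⟩) (dimB hV) G (fun a => isMulti (hG a)) P
      (fun a j => isMulti (hPh a j)) (fun a I hI => sys (hP a I (by
        refine Eq.trans ?_ (hI ()).1
        exact Finset.sum_congr (Finset.ext fun _ => by simp) fun _ _ => rfl) (by
        refine le_trans (le_of_eq ?_) (hI ()).2
        rw [Set.ncard_eq_toFinset_card']
        congr 1
        ext i
        simp))) c htr hHF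
    refine ⟨C, ?_⟩
    intro L _ _ _ _ _ _ _ _ x hx B T hBT hB hT
    obtain ⟨⟨i, hi⟩, hxV⟩ := hx
    have hx0 : ∃ i, x i ≠ 0 := ⟨i, by rw [hi]; exact one_ne_zero⟩
    obtain ⟨r, u, w, hr, hu, hpx, htan, hw, h1, h2⟩ := hC L x (fun _ => ⟨i, rfl, hi⟩) hxV B T hBT
      hT hB
    have hS : ∀ f : Unit → ℤ, ∑ s, f s = f () := fun f => Fintype.sum_unique f
    have hSn : ∀ f : Unit → ℕ, ∑ s, f s = f () := fun f => Fintype.sum_unique f
    have hMt : Pool.Agent.K6.H80.FV.Mt k (fun _ : Fin (n + 1) => ()) (fun a _ => d a) H T x =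
        Meets k d H T x := by
      ext P
      refine exists_congr fun t => and_congr_right fun _ => ?_
      rw [hS, po_eq x hx0]
    have hh : 0 ≤ pht k x := by
      rw [← bht_eq x hx0 ()]
      exact Pool.Agent.K6.H80.FV.bht_nonneg (c := fun _ => i) (fun _ => hi) (fun _ => rfl) ()
    rw [hMt, hS, bht_eq x hx0] at h1 h2
    rw [hSn] at hw
    push_cast at h1 h2
    have key : ∀ (N : ℕ) (u : Fin N → Fin (n + 1) → L), N = r + 1 → LinearIndependent L u →
        (∀ s, Pool.Agent.K6.H80.LV.px (fun _ : Fin (n + 1) => ()) x s ∈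
          Submodule.span L (Set.range u)) →
        (∀ i, ∀ f ∈ V, ∑ l, aeval x (pderiv l f) * u i l = 0) →
        (∑ a ∈ B, (d a : ℤ) + ∑ a ∈ T, (d a : ℤ) - w ()) * pht k x +
          Pool.Agent.K6.H80.FV.sht k (fun _ : Fin (n + 1) => ()) x u ≤
            (Meets k d H T x).ncard + canDeg k L + C * Module.finrank F L →
        ∃ u : Fin (r + 1) → Fin (n + 1) → L, IsTangentBasis V x u ∧ 0 ≤ spaceHeight k u ∧
          (∑ b ∈ B, (d b : ℤ) + ∑ t ∈ T, (d t : ℤ) - w () - r - 1) * pht k x +
            spaceHeight k u ≤ (Meets k d H T x).ncard + canDeg k L + C * Module.finrank F L := by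
      rintro N u rfl hu hpx htan h1
      have hsht := sht_eq (k := k) (x := x) hi (u := u) hu
      have hU0 : 0 ≤ spaceHeight k u := by
        have h3 := Pool.Agent.K6.H80.FV.le_sht (k := k) (β := fun _ : Fin (n + 1) => ())
          (c := fun _ => i) (x := x) (fun _ => hi) (fun _ => rfl) hu (μ := fun _ => r) fun s => by
            refine (Submodule.finrank_map_le _ _).trans ?_
            rw [finrank_span_eq_card hu, Fintype.card_fin]
        rw [hS, bht_eq x hx0, hsht] at h3
        push_cast at h3
        linarith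
      rw [hsht] at h1
      push_cast at h1
      refine ⟨u, ⟨hu, ?_, htan⟩, hU0, ?_⟩
      · have h3 : Pool.Agent.K6.H80.LV.px (fun _ : Fin (n + 1) => ()) x () = x := by
          funext l
          rw [Pool.Agent.K6.H80.LV.px_apply, if_pos rfl]
        have h4 := hpx ()
        rwa [h3] at h4
      · refine le_trans (le_of_eq ?_) h1
        ring
    obtain ⟨u', hu1, hu2, hu3⟩ := key _ u (by simp) hu hpx htan h1
    refine ⟨?_, w (), r, u', hr, hw, hu1, hu2, hu3⟩
    refine le_trans (mul_le_mul_of_nonneg_right ?_ hh) h2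
    have h3 : ((w () : ℕ) : ℤ) + B.card ≤ r + e := by exact_mod_cast hw
    have h4 : (r : ℤ) ≤ m := by exact_mod_cast hr
    rw [Finset.sum_add_distrib, Finset.sum_const, nsmul_eq_mul, mul_one]
    linarith

end Pool.Agent.Results.MP_4dacf8_ag.CodimensionInModuli
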