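import Pool.Agent.K6.H80.FV.Base
import Pool.Agent.K6.H80.LV.Lin

/-!
MP_4dacf8_ag, Q1: Vojta's height inequality, with constant one and with the truncated counting
function, for all algebraic points of the pairs given by generic members of linear systems on an
arbitrary subvariety of a product of projective spaces: complete intersections and their
complements, degeneracy loci of matrices of forms, zero loci of sections of vector bundles,
preimages of subvarieties under generic maps.

Let `F` be a function field of one variable over an algebraically closed field `k` of characteristic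
`0`, and `F0` a subfield of `F` that is finitely generated over a subfield `k0` of `k`. Let `V` be a
closed subvariety of a product of projective spaces of dimensions `n_s`, `s ∈ S`, given by
multihomogeneous forms over `F0` (it need not be isotrivial); in other words, `V` is a projective
variety with globally generated line bundles `H_s`, `s ∈ S`, the morphism given by all of them
together being a closed immersion. Let `m` be at least the dimension of `V`, and `μ_s` at least the
dimension of the projection of `V` to the factor `s`.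

For `a` in a finite set `A`, let `H_a` be a generic member of a linear system on `V` of forms of
multidegree `d_a = (d_a(s))_s`: `H_a = G_a + ∑ c_(a,j) P_(a,j)` with forms `G_a`, `P_(a,j)` over `F0`
such that, on `V`, all the monomials of multidegree `d_a` with at most two variables of each factor
are linear combinations of the `P_(a,j)`; the coefficients `c_(a,j)` in `F` are, for all `a`
together, algebraically independent over `F0`. (If `k` is uncountable and `F0` is countable, the
coefficients may be very general elements of `k`, or very general families.)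

Let `x` be a point of `V` over a finite extension `L` of `F`, with one of the coordinates in each
factor equal to `1`. A subset `B` of `A` is *related* at `x` if, for `b ∈ B`, the value `H_b(x)` is
algebraic over the field generated over `F0` by `x` and the `H_a(x)`, `a ∉ B`. For instance:
* `B` is related if `H_b(x) = 0` for all `b ∈ B`, that is, if `x` is a point of the complete
  intersection `X = V ∩ {H_b = 0, b ∈ B}`;
* if a `p × q`-matrix of different members of the family has rank at most `ρ` at `x`, there are `ρ`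
  rows and `ρ` columns such that the set `B` of the entries outside of them is related (then
  `|B| = (p - ρ) (q - ρ)` is the expected codimension of the degeneracy locus);
* if `∑ Q_(i,a) H_a(x) = 0` for all `i` with a matrix `Q` over `F0(x)` of rank at least `ρ`, there is
  a related set with at least `ρ` elements (zero loci of generic sections of vector bundles);
* if the values `H_a(x)` generate a field of transcendence degree at most `N` over `F0(x)`, there is a
  related set with at least `|A| - N` elements (for instance, the point `(H_a(x))` lies on a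
  subvariety of dimension at most `N`, defined over `F0`, of affine space).

Theorem. There is a constant `C`, which does not depend on `L` and `x`, such that, for all such
`x`, all related sets `B`, and all sets `T` disjoint from `B` with `H_t(x) ≠ 0` for `t ∈ T`, there
are integers `w_s ≥ 0` with `∑ w_s + |B| ≤ m` and

`∑_s (∑_(a ∈ B ∪ T) d_a(s) - w_s - μ_s - 1) h_s(x) ≤ N_T(x) + 2 g(L) - 2 + C [L : F]`,

where `h_s(x)` is the height with respect to `H_s` and `L`, and `N_T(x)` is the number of the places
of `L` at which `x` meets one of the divisors `H_t = 0`, `t ∈ T`, each place being counted once. So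
`∑_s (∑_(b ∈ B) (d_b(s) + 1) + ∑_(t ∈ T) d_t(s) - μ_s - m - 1) h_s(x)` is at most the right hand
side. More precisely, there are an `r ≤ m` with `∑ w_s + |B| ≤ r` and a space `U` of dimension
`r + |S|` between the space of the position vectors and the tangent space at `x` of the multicone over
`V` such that

`∑_s (∑_(a ∈ B ∪ T) d_a(s) - w_s) h_s(x) + h(U) ≤ N_T(x) + 2 g(L) - 2 + C [L : F]`,

where `h(U)` is minus the degree of the vector bundle on the curve of `L` that `U` generates in the
sum of the bundles `x^* O(H_s) ^ (n_s + 1)`. If `V` is smooth of dimension `m` along `x` and `r = m`,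
then `U` is the whole tangent space and `h(U)` is the height with respect to the canonical class
`K_V`. For a complete intersection `X` of `B` and the boundary `D` of `T` in it, the left hand side is
then the height with respect to `K_X + D - ∑ w_s H_s`, where `∑ w_s ≤ dim X`.

For instance, if `V` is the product of the projective spaces, we may take `m = ∑ n_s` and
`μ_s = n_s`; if `∑_(b ∈ B) (d_b(s) + 1) + ∑_(t ∈ T) d_t(s) ≥ n_s + m + 2` for all `s`, then
`∑ h_s(x) ≤ N_T(x) + 2 g(L) - 2 + C [L : F]` for all algebraic points of `X` outside of `D`: the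
conjecture holds for the pair `(X, D)`, with `Z = D`. Neither the degree of `L` over `F` nor the
position of `x` is restricted.

Here `canDeg k L` is the canonical degree `2 g(L) - 2`, and `pht k (x s) = h_s(x)` is minus the sum
over all places of `L` of the minimum `pord P (x s)` of the orders of the coordinates.
-/

set_option autoImplicit false

namespace Pool.Agent.Results.MP_4dacf8_ag.LinearSystemsOnProducts

open FF MvPolynomial Pool.Agent.W603.LV Pool.Agent.W603.PV

/-- The coordinates of a point of the product of the projective spaces of dimensions `n s`. -/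
abbrev Co {S : Type} (n : S → ℕ) : Type := Σ s, Fin (n s + 1)

/-- All the coordinates. -/
def all {S Ω : Type} {n : S → ℕ} (x : ∀ s, Fin (n s + 1) → Ω) : Co n → Ω := fun q => x q.1 q.2

/-- The polynomial `f` is multihomogeneous of multidegree `e`. -/
def IsForm {R S : Type} [CommSemiring R] {n : S → ℕ} (e : S → ℕ) (f : MvPolynomial (Co n) R) :
    Prop := ∀ I ∈ f.support, ∀ s, ∑ i, I ⟨s, i⟩ = e s

section

variable {F0 S : Type} [Field F0] {n : S → ℕ} (V : Set (MvPolynomial (Co n) F0))

/-- `x` is a point of `f = 0`, `f ∈ V`, over a field `Ω`, with one of the coordinates in each factor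
equal to `1`. -/
def IsPoint {Ω : Type} [Field Ω] [Algebra F0 Ω] (x : ∀ s, Fin (n s + 1) → Ω) : Prop :=
  (∀ s, ∃ i, x s i = 1) ∧ ∀ f ∈ V, aeval (all x) f = 0

/-- The variety `f = 0`, `f ∈ V`, in the product of projective spaces has dimension at most `m`, and
its projection to the factor `s` has dimension at most `μ s`: the coordinates of the points in
extension fields of `F0` generate fields of transcendence degree at most `m` and `μ s`. -/
def DimLE (m : ℕ) (μ : S → ℕ) : Prop :=
  ∀ (Ω : Type) [Field Ω] [Algebra F0 Ω] (x : ∀ s, Fin (n s + 1) → Ω), IsPoint V x →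
    Algebra.trdeg F0 (IntermediateField.adjoin F0 (Set.range (all x))) ≤ m ∧
    ∀ s, Algebra.trdeg F0 (IntermediateField.adjoin F0 (Set.range (x s))) ≤ μ s

/-- On the variety `f = 0`, `f ∈ V`, the monomial `I` is a linear combination of the `P j`. -/
def Mem {J : Type} [Fintype J] (P : J → MvPolynomial (Co n) F0) (I : Co n →₀ ℕ) : Prop :=
  ∃ e : J → F0, ∀ (Ω : Type) [Field Ω] [Algebra F0 Ω] (x : ∀ s, Fin (n s + 1) → Ω), IsPoint V x →
    aeval (all x) (monomial I (1 : F0)) = ∑ j, algebraMap F0 Ω (e j) * aeval (all x) (P j)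

/-- The `H a` are generic members of linear systems on `V` over `F0` of forms of the multidegrees
`d a`. -/
def Generic {F A : Type} [Field F] [Algebra F0 F] (d : A → S → ℕ)
    (H : A → MvPolynomial (Co n) F) : Prop :=
  ∃ (J : A → Type) (_ : ∀ a, Fintype (J a)) (G : A → MvPolynomial (Co n) F0)
    (P : ∀ a, J a → MvPolynomial (Co n) F0) (c : ∀ a, J a → F),
    (∀ a, IsForm (d a) (G a)) ∧ (∀ a j, IsForm (d a) (P a j)) ∧
    (∀ a (I : Co n →₀ ℕ), (∀ s, ∑ i, I ⟨s, i⟩ = d a s ∧ {i | I ⟨s, i⟩ ≠ 0}.ncard ≤ 2) →
      Mem V (P a) I) ∧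
    AlgebraicIndependent F0 (fun p : (Σ a, J a) => c p.1 p.2) ∧
    ∀ a, H a = map (algebraMap F0 F) (G a) + ∑ j, C (c a j) * map (algebraMap F0 F) (P a j)

/-- The vectors `u i` are a basis of a space that contains the position vectors of the point `x` and
is contained in the tangent space at `x` of the multicone over `V`. -/
def IsTangentBasis {L : Type} [Field L] [Algebra F0 L] (x : ∀ s, Fin (n s + 1) → L) {r : ℕ}
    (u : Fin r → Co n → L) [Fintype S] : Prop :=
  LinearIndependent L u ∧
  (∀ s, ∃ v ∈ Submodule.span L (Set.range u), (∀ i, v ⟨s, i⟩ = x s i) ∧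
    ∀ q : Co n, q.1 ≠ s → v q = 0) ∧
  ∀ i, ∀ f ∈ V, ∑ q, aeval (all x) (pderiv q f) * u i q = 0

end

/-- The height of the space with the basis `u`, relative to the point `x`: the sum over the places is
the degree of the vector bundle that it generates in the sum of the bundles `O(H_s) ^ (n s + 1)`. -/
noncomputable def spaceHeight (k : Type) {L S : Type} [Field k] [Field L] [Algebra k L]
    {n : S → ℕ} (x : ∀ s, Fin (n s + 1) → L) {r : ℕ} (u : Fin r → Co n → L) : ℤ :=
  - ∑ᶠ P : Place k L, ⨅ σ : {σ : Fin r → Co n // (Matrix.of fun i j => u i (σ j)).det ≠ 0},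
    (P.ord (Matrix.of fun i j => u i (σ.1 j)).det - ∑ j, pord P (x (σ.1 j).1))

/-- The values `f b`, `b ∈ B`, are algebraic over the field generated over `F0` by `U` and the other
values. -/
def Related (F0 : Type) {L A : Type} [Field F0] [Field L] [Algebra F0 L] (U : Set L) (f : A → L)
    (B : Finset A) : Prop :=
  ∀ b ∈ B, IsAlgebraic (IntermediateField.adjoin F0 (U ∪ f '' {a | a ∉ B})) (f b)

/-- The places of `L` at which the point `x` meets one of the divisors `H t = 0`, `t ∈ T`. -/
def Meets (k : Type) {F L S A : Type} [Field k] [Field F] [Field L] [Algebra k L] [Algebra F L]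
    [Fintype S] {n : S → ℕ} (d : A → S → ℕ) (H : A → MvPolynomial (Co n) F) (T : Finset A)
    (x : ∀ s, Fin (n s + 1) → L) : Set (Place k L) :=
  {P | ∃ t ∈ T, ∑ s, (d t s : ℤ) * pord P (x s) < P.ord (aeval (all x) (H t))}

section

variable {F0 S : Type} [Field F0] {n : S → ℕ}

theorem block_eq {Ω : Type} (x : ∀ s, Fin (n s + 1) → Ω) (s : S) :
    all x '' {q : Co n | q.1 = s} = Set.range (x s) := by
  ext z
  constructor
  · rintro ⟨⟨s', i⟩, h, rfl⟩
    obtain rfl : s' = s := h
    exact ⟨i, rfl⟩
  · rintro ⟨i, rfl⟩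
    exact ⟨⟨s, i⟩, rfl, rfl⟩

theorem dimB {V : Set (MvPolynomial (Co n) F0)} {m : ℕ}
    {μ : S → ℕ} (h : DimLE V m μ) :
    Pool.Agent.K6.H80.LV.DimB F0 (fun q : Co n => q.1) V m μ := by
  intro Ω _ _ x hx hxV
  obtain ⟨h1, h2⟩ := h Ω (fun s i => x ⟨s, i⟩) ⟨fun s => by
    obtain ⟨⟨s', i⟩, h1, h2⟩ := hx s
    obtain rfl : s' = s := h1
    exact ⟨i, h2⟩, hxV⟩
  refine ⟨h1, fun s => ?_⟩
  have h3 := block_eq (fun s i => x ⟨s, i⟩) s
  have h4 : x '' {q : Co n | q.1 = s} = Set.range fun i => x ⟨s, i⟩ := h3
  rw [h4]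
  exact h2 s

theorem sys {V : Set (MvPolynomial (Co n) F0)}
    {J : Type} [Fintype J] {P : J → MvPolynomial (Co n) F0} {I : Co n →₀ ℕ} (h : Mem V P I) :
    Pool.Agent.K6.H80.LV.Sys (fun q : Co n => q.1) V P I := by
  obtain ⟨e, he⟩ := h
  refine ⟨e, fun Ω _ _ x hx hxV => ?_⟩
  exact he Ω (fun s i => x ⟨s, i⟩) ⟨fun s => by
    obtain ⟨⟨s', i⟩, h1, h2⟩ := hx s
    obtain rfl : s' = s := h1
    exact ⟨i, h2⟩, hxV⟩

theorem emb_inj (s : S) : Function.Injective fun i : Fin (n s + 1) => (⟨s, i⟩ : Co n) := by
  intro i j h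
  exact eq_of_heq (Sigma.mk.inj_iff.1 h).2

open scoped Classical in
theorem filter_eq [Fintype S] (s : S) : Finset.univ.filter (fun l : Co n => l.1 = s) =
    Finset.univ.map ⟨fun i => (⟨s, i⟩ : Co n), emb_inj s⟩ := by
  ext ⟨s', i⟩
  rw [Finset.mem_filter, Finset.mem_map]
  constructor
  · rintro ⟨-, h⟩
    obtain rfl : s' = s := h
    exact ⟨i, Finset.mem_univ _, rfl⟩
  · rintro ⟨j, -, h⟩
    exact ⟨Finset.mem_univ _, (congrArg Sigma.fst h).symm⟩

theorem isMulti {R : Type} [CommSemiring R] [Fintype S] {e : S → ℕ} {f : MvPolynomial (Co n) R}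
    (h : IsForm e f) : Pool.Agent.K6.H80.FV.IsMulti (fun q : Co n => q.1) e f := by
  classical
  intro I hI s
  rw [← h I hI s]
  refine Eq.trans ?_ (Finset.sum_map Finset.univ
    ⟨fun i => (⟨s, i⟩ : Co n), emb_inj s⟩ fun q => I q)
  refine Finset.sum_congr ?_ fun _ _ => rfl
  convert filter_eq (n := n) s

theorem po_eq {k L : Type} [Field k] [Field L] [Algebra k L] (x : ∀ s, Fin (n s + 1) → L)
    (hx : ∀ s, ∃ i, x s i ≠ 0) (P : Place k L) (s : S) [Finite S] :
    Pool.Agent.K6.H80.LV.po (fun q : Co n => q.1) P (all x) s = pord P (x s) := by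
  obtain ⟨i0, hi0⟩ := hx s
  apply le_antisymm
  · obtain ⟨j, hj0, hj⟩ := exists_pord P ⟨i0, hi0⟩
    rw [← hj]
    have := Fintype.ofFinite S
    exact Pool.Agent.K6.H80.LV.po_le (β := fun q : Co n => q.1) P (x := all x) (j := ⟨s, j⟩) hj0
  · have := Fintype.ofFinite S
    obtain ⟨⟨s', j⟩, h1, h2, h3⟩ := Pool.Agent.K6.H80.LV.exists_po (β := fun q : Co n => q.1) P
      (x := all x) (j0 := ⟨s, i0⟩) hi0
    obtain rfl : s' = s := h1
    rw [← h3]
    exact pord_le P h2

end

/-- The transcendence degree is at most the number of the generators different from `1`. -/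
theorem trdeg_le {F0 Ω J : Type} [Field F0] [Field Ω] [Algebra F0 Ω] [Fintype J] (x : J → Ω)
    (U : Finset J) (hU : ∀ j, j ∉ U → x j = 1) :
    Algebra.trdeg F0 (IntermediateField.adjoin F0 (Set.range x)) ≤ U.card := by
  classical
  obtain ⟨G, hG⟩ : ∃ G, G = IntermediateField.adjoin F0 (Set.range x) := ⟨_, rfl⟩
  rw [← hG]
  have hxG : ∀ i, x i ∈ G := fun i => by
    rw [hG]; exact IntermediateField.subset_adjoin _ _ ⟨i, rfl⟩
  obtain ⟨y, hy⟩ : ∃ y : J → G, ∀ i, (y i : Ω) = x i := ⟨fun i => ⟨x i, hxG i⟩, fun _ => rfl⟩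
  have htop : IntermediateField.adjoin F0 (y '' (U : Set J)) = ⊤ := by
    rw [eq_top_iff]
    rintro ⟨z, hz⟩ -
    have h2 : G ≤ (IntermediateField.adjoin F0 (y '' (U : Set J))).map G.val := by
      conv_lhs => rw [hG]
      rw [IntermediateField.adjoin_le_iff]
      rintro _ ⟨i, rfl⟩
      by_cases hi : i ∈ U
      · exact ⟨y i, IntermediateField.subset_adjoin _ _ ⟨i, hi, rfl⟩, hy i⟩
      · rw [hU i hi]
        exact one_mem _
    obtain ⟨w, hw, hwz⟩ := h2 hz
    have h4 : w = ⟨z, hz⟩ := Subtype.ext hwz
    rw [← h4]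
    exact hw
  have halg : Algebra.IsAlgebraic (IntermediateField.adjoin F0 (y '' (U : Set J))) G :=
    ⟨fun f => isAlgebraic_algebraMap (⟨f, by rw [htop]; trivial⟩ :
      IntermediateField.adjoin F0 (y '' (U : Set J)))⟩
  have halg' : Algebra.IsAlgebraic (Algebra.adjoin F0 (y '' (U : Set J))) G :=
    ⟨fun f => IntermediateField.isAlgebraic_adjoin_iff.1 (halg.isAlgebraic f)⟩
  have h7 := Algebra.IsAlgebraic.trdeg_le_cardinalMk (R := F0) (y '' (U : Set J))
  refine h7.trans ?_
  have hUf : (y '' (U : Set J)).Finite := (Finset.finite_toSet U).image _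
  have hUc : (y '' (U : Set J)).ncard ≤ U.card := by
    refine (Set.ncard_image_le (Finset.finite_toSet U)).trans ?_
    rw [Set.ncard_coe_finset]
  rw [← Set.cast_ncard hUf]
  exact_mod_cast hUc

theorem result :
    -- the dimensions of a product of projective spaces
    (∀ {F0 S : Type} [Field F0] [Fintype S] (n : S → ℕ),
      DimLE (∅ : Set (MvPolynomial (Co n) F0)) (∑ s, n s) n) ∧
    -- related sets: zeros, degeneracy loci, linear equations, small transcendence degree
    (∀ {F0 L A : Type} [Field F0] [Field L] [Algebra F0 L] [Fintype A] [DecidableEq A]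
      (U : Set L) (f : A → L),
      (∀ B : Finset A, (∀ b ∈ B, f b = 0) → Related F0 U f B) ∧
      (∀ (p q ρ : ℕ) (e : Fin p × Fin q ↪ A), ρ ≤ p → ρ ≤ q →
        (Matrix.of fun i j => f (e (i, j))).rank ≤ ρ → ∃ (R : Finset (Fin p)) (C : Finset (Fin q)),
          R.card = ρ ∧ C.card = ρ ∧ Related F0 U f ((Rᶜ ×ˢ Cᶜ).map e)) ∧
      (∀ (p ρ : ℕ) (Q : Matrix (Fin p) A L), ρ ≤ Q.rank →
        (∀ i a, Q i a ∈ IntermediateField.adjoin F0 U) → Q.mulVec f = 0 →
          ∃ B : Finset A, ρ ≤ B.card ∧ Related F0 U f B) ∧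
      ∀ N : ℕ, Algebra.trdeg (IntermediateField.adjoin F0 U)
        (IntermediateField.adjoin (IntermediateField.adjoin F0 U) (Set.range f)) ≤ N →
          ∃ B : Finset A, Fintype.card A ≤ N + B.card ∧ Related F0 U f B) ∧
    -- the height inequality
    ∀ {k0 k F0 F : Type} [Field k0] [Field k] [Field F0] [Field F] [IsAlgClosed k]
      [CharZero k] [Algebra k0 k] [Algebra k F] [Algebra k0 F] [IsScalarTower k0 k F]
      [Algebra k0 F0] [Algebra F0 F] [IsScalarTower k0 F0 F] [IsFF k F]
      (_ : ∃ U : Finset F0, IntermediateField.adjoin k0 (U : Set F0) = ⊤)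
      {S : Type} [Fintype S] {n : S → ℕ} (V : Set (MvPolynomial (Co n) F0))
      (_ : ∀ f ∈ V, ∃ e, IsForm e f) {m : ℕ} {μ : S → ℕ} (_ : DimLE V m μ)
      {A : Type} [Fintype A] (d : A → S → ℕ) (H : A → MvPolynomial (Co n) F)
      (_ : Generic V d H),
      ∃ C : ℕ, ∀ (L : Type) [Field L] [Algebra k L] [Algebra F L] [Algebra F0 L]
        [IsScalarTower k F L] [IsScalarTower F0 F L] [FiniteDimensional F L]
        (x : ∀ s, Fin (n s + 1) → L), IsPoint V x → ∀ (B T : Finset A), Disjoint B T →
        Related F0 (Set.range (all x)) (fun a => aeval (all x) (H a)) B →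
        (∀ t ∈ T, aeval (all x) (H t) ≠ 0) →
        ∃ (w : S → ℕ) (r : ℕ) (u : Fin (r + Fintype.card S) → Co n → L),
          r ≤ m ∧ ∑ s, w s + B.card ≤ r ∧ IsTangentBasis V x u ∧
          ∑ s, (∑ a ∈ B, (d a s : ℤ) + ∑ a ∈ T, (d a s : ℤ) - w s - μ s - 1) * pht k (x s) ≤
            (Meets k d H T x).ncard + canDeg k L + C * Module.finrank F L ∧
          ∑ s, (∑ a ∈ B, (d a s : ℤ) + ∑ a ∈ T, (d a s : ℤ) - w s) * pht k (x s) +
            spaceHeight k x u ≤
            (Meets k d H T x).ncard + canDeg k L + C * Module.finrank F L := by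
  classical
  refine ⟨fun {F0 S} _ _ n Ω _ _ x hx => ?_, fun {F0 L A} _ _ _ _ _ U f => ⟨fun B hB b hb => ?_,
    fun p q ρ e hp hq hrk => ?_, fun p ρ Q hrk hQ hf => ?_, fun N hN => ?_⟩,
    fun {k0 k F0 F} _ _ _ _ _ _ _ _ _ _ _ _ _ _ hfg {S} _ {n} V hVh {m μ} hV {A} _ d H hH => ?_⟩
  · choose c hc using hx.1
    have h1 : ∀ s, Algebra.trdeg F0 (IntermediateField.adjoin F0 (Set.range (x s))) ≤ (n s : ℕ) := by
      intro s
      refine (trdeg_le (x s) (Finset.univ.erase (c s)) fun i hi => ?_).trans ?_
      · by_cases h : i = c s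
        · rw [h]; exact hc s
        · exact absurd (Finset.mem_erase.2 ⟨h, Finset.mem_univ _⟩) hi
      · rw [Finset.card_erase_of_mem (Finset.mem_univ _), Finset.card_univ, Fintype.card_fin]
        exact_mod_cast le_refl _
    refine ⟨?_, h1⟩
    refine (trdeg_le (all x) (Finset.univ.sigma fun s => Finset.univ.erase (c s))
      fun q hq => ?_).trans ?_
    · obtain ⟨s, i⟩ := q
      by_cases h : i = c s
      · rw [h]; exact hc s
      · refine absurd ?_ hq
        exact Finset.mem_sigma.2 ⟨Finset.mem_univ _, Finset.mem_erase.2 ⟨h, Finset.mem_univ _⟩⟩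
    · rw [Finset.card_sigma]
      refine le_of_eq ?_
      congr 1
      refine Finset.sum_congr rfl fun s _ => ?_
      rw [Finset.card_erase_of_mem (Finset.mem_univ _), Finset.card_univ, Fintype.card_fin]
      rfl
  · rw [hB b hb]
    exact isAlgebraic_zero
  · obtain ⟨R, C, hR, hC, hM⟩ := Pool.Agent.K6.H80.LV.exists_B_rank (k' := F0) (U := U) _ hrk
      (by rw [Fintype.card_fin]; exact hp) (by rw [Fintype.card_fin]; exact hq)
    refine ⟨R, C, hR, hC, fun b hb => ?_⟩
    obtain ⟨⟨i, j⟩, hij, rfl⟩ := Finset.mem_map.1 hb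
    obtain ⟨hi, hj⟩ := Finset.mem_product.1 hij
    have h1 := hM i j (Finset.mem_compl.1 hi) (Finset.mem_compl.1 hj)
    have h2 := IntermediateField.adjoin.mono F0 _ (U ∪ f '' {a | a ∉ (Rᶜ ×ˢ Cᶜ).map e}) (by
      refine Set.union_subset_union_right _ ?_
      rintro _ ⟨i, j, hij, rfl⟩
      refine ⟨e (i, j), fun h => ?_, rfl⟩
      obtain ⟨⟨i', j'⟩, hij', h⟩ := Finset.mem_map.1 h
      obtain ⟨rfl, rfl⟩ := Prod.mk.injEq .. ▸ e.injective h
      obtain ⟨hi, hj⟩ := Finset.mem_product.1 hij'
      rcases hij with h | h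
      · exact Finset.mem_compl.1 hi h
      · exact Finset.mem_compl.1 hj h) h1
    exact isAlgebraic_algebraMap (⟨_, h2⟩ : IntermediateField.adjoin F0
      (U ∪ f '' {a | a ∉ (Rᶜ ×ˢ Cᶜ).map e}))
  · obtain ⟨B, hB, hBf⟩ := Pool.Agent.K6.H80.LV.exists_B_lin (k' := F0) (U := U) Q hQ f hf
    refine ⟨B, by omega, fun b hb => ?_⟩
    exact isAlgebraic_algebraMap (⟨_, hBf b hb⟩ : IntermediateField.adjoin F0
        (U ∪ f '' {a | a ∉ B}))
  · obtain ⟨B, hB, hBf⟩ := Pool.Agent.K6.H80.LV.exists_B_trdeg (k' := F0) (U := U) f hN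
    exact ⟨B, hB, hBf⟩
  · obtain ⟨J, _, G, P, c, hG, hPh, hP, hc, hHF⟩ := hH
    obtain ⟨C, hC⟩ := Pool.Agent.K6.H80.FV.final (k := k) (β := fun q : Co n => q.1) (dg := d)
      (m := m) (μ := μ) hfg V (fun f hf => by
        obtain ⟨e, he⟩ := hVh f hf
        exact ⟨e, isMulti he⟩) (dimB hV) G (fun a => isMulti (hG a)) P
      (fun a j => isMulti (hPh a j)) (fun a I hI => sys (hP a I fun s => by
        obtain ⟨h1, h2⟩ := hI s
        constructor
        · rw [← h1]
          refine Eq.trans ?_ (Finset.sum_congr ((filter_eq (n := n) s).symm.trans (by congr))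
            fun _ _ => rfl)
          rw [Finset.sum_map]
          rfl
        · refine le_trans ?_ h2
          rw [Set.ncard_eq_toFinset_card']
          refine le_trans (le_of_eq (Finset.card_map
            (⟨fun i => (⟨s, i⟩ : Co n), emb_inj s⟩ : Fin (n s + 1) ↪ Co n)).symm) ?_
          refine Finset.card_le_card fun q hq => ?_
          obtain ⟨i, hi, rfl⟩ := Finset.mem_map.1 hq
          exact Finset.mem_filter.2 ⟨Finset.mem_univ _, rfl, Set.mem_toFinset.1 hi⟩)) c hc hHF
    refine ⟨C, ?_⟩
    intro L _ _ _ _ _ _ _ x hx B T hBT hB hT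
    have hx0 : ∀ s, ∃ i, x s i ≠ 0 := fun s => by
      obtain ⟨i, hi⟩ := hx.1 s
      exact ⟨i, by rw [hi]; exact one_ne_zero⟩
    obtain ⟨r, u, w, hr, hu, hpx, htan, hw, h1, h2⟩ := hC L (all x) (fun s => by
      obtain ⟨i, hi⟩ := hx.1 s
      exact ⟨⟨s, i⟩, rfl, hi⟩) hx.2 B T hBT hT hB
    have hbht : ∀ s, Pool.Agent.K6.H80.LV.bht k (fun q : Co n => q.1) (all x) s =
        pht k (x s) := fun s => by
      unfold Pool.Agent.K6.H80.LV.bht pht
      congr 1
      exact finsum_congr fun P => po_eq x hx0 P s
    have hsht : Pool.Agent.K6.H80.FV.sht k (fun q : Co n => q.1) (all x) u =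
        spaceHeight k x u := by
      unfold Pool.Agent.K6.H80.FV.sht spaceHeight
      congr 1
      refine finsum_congr fun P => ?_
      unfold Pool.Agent.K6.H80.FV.lo
      refine iInf_congr fun σ => ?_
      congr 1
      exact Finset.sum_congr rfl fun j _ => po_eq x hx0 P _
    have hMt : Pool.Agent.K6.H80.FV.Mt k (fun q : Co n => q.1) d H T (all x) =
        Meets k d H T x := by
      ext P
      refine exists_congr fun t => and_congr_right fun _ => ?_
      have h3 : ∑ s, (d t s : ℤ) * Pool.Agent.K6.H80.LV.po (fun q : Co n => q.1) P (all x) s =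
          ∑ s, (d t s : ℤ) * pord P (x s) :=
        Finset.sum_congr rfl fun s _ => by rw [po_eq x hx0 P s]
      rw [h3]
    simp only [hbht, hsht, hMt] at h1 h2
    push_cast at h1 h2
    refine ⟨w, r, u, hr, hw, ⟨hu, fun s => ⟨_, hpx s, fun i => ?_, fun q hq => ?_⟩, htan⟩, h2, h1⟩
    · rw [Pool.Agent.K6.H80.LV.px_apply, if_pos rfl]
      rfl
    · rw [Pool.Agent.K6.H80.LV.px_apply, if_neg hq]

end Pool.Agent.Results.MP_4dacf8_ag.LinearSystemsOnProducts
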