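import Pool.Agent.K6.H80.VB.Base

/-!
MP_4dacf8_ag, Q1: Vojta's height inequality, with constant one and with the truncated counting
function, for all algebraic points of the pairs `(X, D)` where `X` is the zero locus of a generic
section of a vector bundle `E` of any rank on an arbitrary projective variety `V`, and `D` is a sum
of generic divisors.

Let `F` be a function field of one variable over an algebraically closed field `k` of characteristic
`0`, and `F0` a subfield of `F` that is finitely generated over a subfield `k0` of `k`. Let `V` be a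
closed subvariety of a product of projective spaces of dimensions `n_s`, `s ∈ S`, over `F0`; in other
words, a projective variety with globally generated line bundles `H_s`, the morphism given by all of
them together being a closed immersion. Let `m` be at least the dimension of `V`, and `μ_s` at least
the dimension of the projection of `V` to the factor `s`.

Let `E` be a vector bundle of rank `e` on `V` with a linear presentation: `E` is generated by finitely
many global sections `σ_j`, `j ∈ J`, and the bundle `M_E` of the relations between them is generated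
by relations whose coefficients are linear forms on one of the factors; so `E` is the cokernel of a
matrix `⊕_q H_(s(q))^(-1) → O^J` of such forms. (If `H` is very ample and `E` is `0`-regular with
respect to `H`, then `E` has such a presentation, by Castelnuovo and Mumford. So this holds for all
vector bundles on all projective varieties after a twist; and for all sums, tensor products, symmetric
and exterior powers of such bundles, for `T_P(-1)`, `Ω_P(2)` and `O_P(d)` on a projective space `P`,
for `Q` and `S^*` on the Grassmannians, `Q` and `S` being the tautological bundles and `H` the Plücker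
line bundle.) In Lean, `rel sq g x q` is the value at the point `x` of the relation `q`, and
`IsBundle` says that these vectors span a space of codimension `e` for all points of `V` in all
extension fields of `F0`.

Let `X` be the zero locus of the generic section `∑ z_j σ_j` of `E`: the set of the points `x` of `V`
such that the vector `z` is a combination of the relations `rel sq g x q` at `x`. For `t` in a finite
set `T`, let `H_t = 0` be a generic member of a linear system on `V` of forms of multidegree `d_t`, that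
includes, on `V`, all the monomials with at most two variables of each factor (with a fixed part `G_t`
over `F0`). The coefficients `z_j`, and those of all the `H_t`, are together algebraically independent
over `F0`.

Theorem. There is a constant `C` such that for all finite extensions `L` of `F`, for all points `x` of
`X` over `L` and all sets `T'` of indices with `H_t(x) ≠ 0` for `t ∈ T'`, there are integers `w_s ≥ 0`
and `r ≤ m` with `∑ w_s + e ≤ r` and

`h_E(x) + ∑_s (∑_(t ∈ T') d_t(s) - w_s - μ_s - 1) h_s(x) ≤ N_T'(x) + 2 g(L) - 2 + C [L : F]`,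

where `h_E(x)` is the height of `x` with respect to `det E`, that is, the degree of the pullback of `E`
to the curve of `L`, `h_s(x)` is the height with respect to `H_s`, and `N_T'(x)` is the number of the
places of `L` at which `x` meets one of the divisors `H_t = 0`, `t ∈ T'`, each place being counted once.
More precisely, there is a space `U` of dimension `r + |S|` between the space of the position vectors
and the tangent space at `x` of the multicone over `V` such that

`h_E(x) + ∑_s (∑_(t ∈ T') d_t(s) - w_s) h_s(x) + h(U) ≤ N_T'(x) + 2 g(L) - 2 + C [L : F]`,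

where `h(U)` is minus the degree of the vector bundle on the curve of `L` that `U` generates in the sum
of the bundles `x^* O(H_s) ^ (n_s + 1)`. If `V` is smooth of dimension `m` along `x` and `r = m`, then
`h(U)` is the height with respect to `K_V`; since `K_X = K_V + det E` on `X`, the left hand side is then
the height with respect to `K_X + D - ∑ w_s H_s`, where `∑ w_s ≤ dim X`. In the first inequality `K_V`
is replaced by the lower bound `- ∑ (μ_s + 1) H_s`. So the conjecture holds for `(X, D)`, with `Z = D`,
if `det E + D - ∑ (w_s + μ_s + 1) H_s` is ample for all `w_s ≥ 0` with `∑ w_s ≤ m - e`; neither the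
degree of `L` over `F` nor the position of `x` in `X` outside of `D` is restricted.

In Lean, `IsFibre sq g x A` says that the matrix `A` defines the fibre of `E` at `x`: its rows are a
basis of the space of the linear functionals that vanish on the relations at `x` (it exists, by the
first part of the theorem). The columns of `A` are the values of the sections `σ_j`, and
`bundleHeight k A` is `h_E(x)`: minus the sum over the places of the minimal order of the minors of
`A` of order `e`. `canDeg k L` is `2 g(L) - 2`, and `pht k (x s)` is `h_s(x)`.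
-/

set_option autoImplicit false

namespace Pool.Agent.Results.MP_4dacf8_ag.SectionsOfVectorBundles

open FF MvPolynomial Pool.Agent.W603.LV Pool.Agent.W603.PV

/-- The coordinates of a point of the product of the projective spaces of dimensions `n s`. -/
abbrev Co {S : Type} (n : S → ℕ) : Type := Σ s, Fin (n s + 1)

/-- All the coordinates. -/
def all {S Ω : Type} {n : S → ℕ} (x : ∀ s, Fin (n s + 1) → Ω) : Co n → Ω := fun q => x q.1 q.2

/-- The polynomial `f` is multihomogeneous of multidegree `d`. -/
def IsForm {R S : Type} [CommSemiring R] {n : S → ℕ} (d : S → ℕ) (f : MvPolynomial (Co n) R) :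
    Prop := ∀ I ∈ f.support, ∀ s, ∑ i, I ⟨s, i⟩ = d s

section

variable {F0 S : Type} [Field F0] {n : S → ℕ} (V : Set (MvPolynomial (Co n) F0))

/-- `x` is a point of `f = 0`, `f ∈ V`, over a field `Ω`, with one of the coordinates in each factor
equal to `1`. -/
def IsPoint {Ω : Type} [Field Ω] [Algebra F0 Ω] (x : ∀ s, Fin (n s + 1) → Ω) : Prop :=
  (∀ s, ∃ i, x s i = 1) ∧ ∀ f ∈ V, aeval (all x) f = 0

/-- The variety `f = 0`, `f ∈ V`, in the product of projective spaces has dimension at most `m`, and
its projection to the factor `s` has dimension at most `μ s`: the coordinates of the points in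
extension fields of `F0` generate fields of transcendence degree at most `m` and `μ s`. -/
def DimLE (m : ℕ) (μ : S → ℕ) : Prop :=
  ∀ (Ω : Type) [Field Ω] [Algebra F0 Ω] (x : ∀ s, Fin (n s + 1) → Ω), IsPoint V x →
    Algebra.trdeg F0 (IntermediateField.adjoin F0 (Set.range (all x))) ≤ m ∧
    ∀ s, Algebra.trdeg F0 (IntermediateField.adjoin F0 (Set.range (x s))) ≤ μ s

/-- The value at `x` of the relation `q` between the sections of the bundle: a vector of linear forms
in the coordinates of the factor `sq q`. -/
def rel {J Q Ω : Type} [Field Ω] [Algebra F0 Ω] (sq : Q → S)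
    (g : ∀ q, J → Fin (n (sq q) + 1) → F0) (x : ∀ s, Fin (n s + 1) → Ω) (q : Q) (j : J) : Ω :=
  ∑ i, algebraMap F0 Ω (g q j i) * x (sq q) i

/-- The quotient by the relations is a vector bundle of rank `e` on `V`. -/
def IsBundle {J Q : Type} [Fintype J] (sq : Q → S) (g : ∀ q, J → Fin (n (sq q) + 1) → F0)
    (e : ℕ) : Prop :=
  ∀ (Ω : Type) [Field Ω] [Algebra F0 Ω] (x : ∀ s, Fin (n s + 1) → Ω), IsPoint V x →
    Module.finrank Ω (Submodule.span Ω (Set.range (rel sq g x))) + e = Fintype.card J

/-- The matrix `A` defines the fibre of the bundle at `x`: its rows are linearly independent, and its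
kernel contains the relations. -/
def IsFibre {J Q L : Type} [Fintype J] [Field L] [Algebra F0 L] (sq : Q → S)
    (g : ∀ q, J → Fin (n (sq q) + 1) → F0) (x : ∀ s, Fin (n s + 1) → L) {e : ℕ}
    (A : Matrix (Fin e) J L) : Prop :=
  LinearIndependent L A.row ∧ ∀ q, A.mulVec (rel sq g x q) = 0

/-- On the variety `f = 0`, `f ∈ V`, the monomial `I` is a linear combination of the `P j`. -/
def Mem {J : Type} [Fintype J] (P : J → MvPolynomial (Co n) F0) (I : Co n →₀ ℕ) : Prop :=
  ∃ e : J → F0, ∀ (Ω : Type) [Field Ω] [Algebra F0 Ω] (x : ∀ s, Fin (n s + 1) → Ω), IsPoint V x →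
    aeval (all x) (monomial I (1 : F0)) = ∑ j, algebraMap F0 Ω (e j) * aeval (all x) (P j)

/-- The `H t` are generic members of linear systems on `V` over `F0` of forms of the multidegrees
`d t`, and their coefficients are together with the `z j` algebraically independent over `F0`. -/
def Generic {F T J : Type} [Field F] [Algebra F0 F] (d : T → S → ℕ)
    (H : T → MvPolynomial (Co n) F) (z : J → F) : Prop :=
  ∃ (X : T → Type) (_ : ∀ t, Fintype (X t)) (G : T → MvPolynomial (Co n) F0)
    (P : ∀ t, X t → MvPolynomial (Co n) F0) (c : ∀ t, X t → F),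
    (∀ t, IsForm (d t) (G t)) ∧ (∀ t j, IsForm (d t) (P t j)) ∧
    (∀ t (I : Co n →₀ ℕ), (∀ s, ∑ i, I ⟨s, i⟩ = d t s ∧ {i | I ⟨s, i⟩ ≠ 0}.ncard ≤ 2) →
      Mem V (P t) I) ∧
    AlgebraicIndependent F0 (Sum.elim z fun p : (Σ t, X t) => c p.1 p.2) ∧
    ∀ t, H t = map (algebraMap F0 F) (G t) + ∑ j, C (c t j) * map (algebraMap F0 F) (P t j)

/-- The vectors `u i` are a basis of a space that contains the position vectors of the point `x` and
is contained in the tangent space at `x` of the multicone over `V`. -/
def IsTangentBasis {L : Type} [Field L] [Algebra F0 L] (x : ∀ s, Fin (n s + 1) → L) {r : ℕ}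
    (u : Fin r → Co n → L) [Fintype S] : Prop :=
  LinearIndependent L u ∧
  (∀ s, ∃ v ∈ Submodule.span L (Set.range u), (∀ i, v ⟨s, i⟩ = x s i) ∧
    ∀ q : Co n, q.1 ≠ s → v q = 0) ∧
  ∀ i, ∀ f ∈ V, ∑ q, aeval (all x) (pderiv q f) * u i q = 0

end

/-- The height of the space with the basis `u`, relative to the point `x`: the sum over the places is
the degree of the vector bundle that it generates in the sum of the bundles `O(H_s) ^ (n s + 1)`. -/
noncomputable def spaceHeight (k : Type) {L S : Type} [Field k] [Field L] [Algebra k L]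
    {n : S → ℕ} (x : ∀ s, Fin (n s + 1) → L) {r : ℕ} (u : Fin r → Co n → L) : ℤ :=
  - ∑ᶠ P : Place k L, ⨅ σ : {σ : Fin r → Co n // (Matrix.of fun i j => u i (σ j)).det ≠ 0},
    (P.ord (Matrix.of fun i j => u i (σ.1 j)).det - ∑ j, pord P (x (σ.1 j).1))

/-- The degree on the curve of `L` of the vector bundle that is generated by sections whose values
are the columns of `A`: minus the sum over the places of the minimal order of the minors. -/
noncomputable def bundleHeight (k : Type) {L J : Type} [Field k] [Field L] [Algebra k L] {e : ℕ}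
    (A : Matrix (Fin e) J L) : ℤ :=
  - ∑ᶠ P : Place k L, ⨅ I : {I : Fin e → J // (A.submatrix id I).det ≠ 0},
    P.ord (A.submatrix id I.1).det

/-- The places of `L` at which the point `x` meets one of the divisors `H t = 0`, `t ∈ T'`. -/
def Meets (k : Type) {F L S T : Type} [Field k] [Field F] [Field L] [Algebra k L] [Algebra F L]
    [Fintype S] {n : S → ℕ} (d : T → S → ℕ) (H : T → MvPolynomial (Co n) F) (T' : Finset T)
    (x : ∀ s, Fin (n s + 1) → L) : Set (Place k L) :=
  {P | ∃ t ∈ T', ∑ s, (d t s : ℤ) * pord P (x s) < P.ord (aeval (all x) (H t))}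

section

variable {F0 S : Type} [Field F0] {n : S → ℕ}

theorem block_eq {Ω : Type} (x : ∀ s, Fin (n s + 1) → Ω) (s : S) :
    all x '' {q : Co n | q.1 = s} = Set.range (x s) := by
  ext z
  constructor
  · rintro ⟨⟨s', i⟩, h, rfl⟩
    obtain rfl : s' = s := h
    exact ⟨i, rfl⟩
  · rintro ⟨i, rfl⟩
    exact ⟨⟨s, i⟩, rfl, rfl⟩

theorem point {V : Set (MvPolynomial (Co n) F0)} {Ω : Type} [Field Ω] [Algebra F0 Ω]
    {x : Co n → Ω} (hx : ∀ s, ∃ l : Co n, l.1 = s ∧ x l = 1) (hxV : ∀ f ∈ V, aeval x f = 0) :
    IsPoint V fun s i => x ⟨s, i⟩ :=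
  ⟨fun s => by
    obtain ⟨⟨s', i⟩, h1, h2⟩ := hx s
    obtain rfl : s' = s := h1
    exact ⟨i, h2⟩, hxV⟩

theorem dimB {V : Set (MvPolynomial (Co n) F0)} {m : ℕ}
    {μ : S → ℕ} (h : DimLE V m μ) :
    Pool.Agent.K6.H80.LV.DimB F0 (fun q : Co n => q.1) V m μ := by
  intro Ω _ _ x hx hxV
  obtain ⟨h1, h2⟩ := h Ω (fun s i => x ⟨s, i⟩) (point hx hxV)
  refine ⟨h1, fun s => ?_⟩
  have h3 := block_eq (fun s i => x ⟨s, i⟩) s
  have h4 : x '' {q : Co n | q.1 = s} = Set.range fun i => x ⟨s, i⟩ := h3
  rw [h4]
  exact h2 s

theorem sys {V : Set (MvPolynomial (Co n) F0)}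
    {J : Type} [Fintype J] {P : J → MvPolynomial (Co n) F0} {I : Co n →₀ ℕ} (h : Mem V P I) :
    Pool.Agent.K6.H80.LV.Sys (fun q : Co n => q.1) V P I := by
  obtain ⟨e, he⟩ := h
  exact ⟨e, fun Ω _ _ x hx hxV => he Ω (fun s i => x ⟨s, i⟩) (point hx hxV)⟩

theorem emb_inj (s : S) : Function.Injective fun i : Fin (n s + 1) => (⟨s, i⟩ : Co n) := by
  intro i j h
  exact eq_of_heq (Sigma.mk.inj_iff.1 h).2

open scoped Classical in
theorem filter_eq [Fintype S] (s : S) : Finset.univ.filter (fun l : Co n => l.1 = s) =
    Finset.univ.map ⟨fun i => (⟨s, i⟩ : Co n), emb_inj s⟩ := by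
  ext ⟨s', i⟩
  rw [Finset.mem_filter, Finset.mem_map]
  constructor
  · rintro ⟨-, h⟩
    obtain rfl : s' = s := h
    exact ⟨i, Finset.mem_univ _, rfl⟩
  · rintro ⟨j, -, h⟩
    exact ⟨Finset.mem_univ _, (congrArg Sigma.fst h).symm⟩

theorem isMulti {R : Type} [CommSemiring R] [Fintype S] {e : S → ℕ} {f : MvPolynomial (Co n) R}
    (h : IsForm e f) : Pool.Agent.K6.H80.FV.IsMulti (fun q : Co n => q.1) e f := by
  classical
  intro I hI s
  rw [← h I hI s]
  refine Eq.trans ?_ (Finset.sum_map Finset.univ
    ⟨fun i => (⟨s, i⟩ : Co n), emb_inj s⟩ fun q => I q)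
  refine Finset.sum_congr ?_ fun _ _ => rfl
  convert filter_eq (n := n) s

theorem po_eq {k L : Type} [Field k] [Field L] [Algebra k L] (x : ∀ s, Fin (n s + 1) → L)
    (hx : ∀ s, ∃ i, x s i ≠ 0) (P : Place k L) (s : S) [Finite S] :
    Pool.Agent.K6.H80.LV.po (fun q : Co n => q.1) P (all x) s = pord P (x s) := by
  obtain ⟨i0, hi0⟩ := hx s
  apply le_antisymm
  · obtain ⟨j, hj0, hj⟩ := exists_pord P ⟨i0, hi0⟩
    rw [← hj]
    have := Fintype.ofFinite S
    exact Pool.Agent.K6.H80.LV.po_le (β := fun q : Co n => q.1) P (x := all x) (j := ⟨s, j⟩) hj0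
  · have := Fintype.ofFinite S
    obtain ⟨⟨s', j⟩, h1, h2, h3⟩ := Pool.Agent.K6.H80.LV.exists_po (β := fun q : Co n => q.1) P
      (x := all x) (j0 := ⟨s, i0⟩) hi0
    obtain rfl : s' = s := h1
    rw [← h3]
    exact pord_le P h2

open scoped Classical in
/-- The relations, in all the coordinates. -/
noncomputable def gg {J Q : Type} (sq : Q → S) (g : ∀ q, J → Fin (n (sq q) + 1) → F0)
    (q : Q) (j : J) (l : Co n) : F0 :=
  if h : l.1 = sq q then g q j (h ▸ l.2) else 0

theorem gv_eq [Fintype S] {J Q Ω : Type} [Field Ω] [Algebra F0 Ω] (sq : Q → S)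
    (g : ∀ q, J → Fin (n (sq q) + 1) → F0) (x : Co n → Ω) :
    Pool.Agent.K6.H80.VB.Gv (fun q : Co n => q.1) sq (gg sq g) x =
      rel sq g fun s i => x ⟨s, i⟩ := by
  classical
  funext q j
  rw [Pool.Agent.K6.H80.VB.Gv, rel, Fintype.sum_sigma, Finset.sum_eq_single (sq q)]
  · refine Finset.sum_congr rfl fun i _ => ?_
    rw [if_pos rfl, gg, dif_pos rfl]
  · intro s _ hs
    refine Finset.sum_eq_zero fun i _ => ?_
    rw [if_neg hs]
  · intro h
    exact absurd (Finset.mem_univ _) h

/-- The fibre. -/
theorem exists_fibre {J Q L : Type} [Fintype J] [Field L] [Algebra F0 L]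
    (sq : Q → S) (g : ∀ q, J → Fin (n (sq q) + 1) → F0) (x : ∀ s, Fin (n s + 1) → L) {e : ℕ}
    (h : Module.finrank L (Submodule.span L (Set.range (rel sq g x))) + e = Fintype.card J) :
    ∃ A : Matrix (Fin e) J L, IsFibre sq g x A := by
  classical
  obtain ⟨W, hW⟩ : ∃ W, W = Submodule.span L (Set.range (rel sq g x)) := ⟨_, rfl⟩
  rw [← hW] at h
  have h1 := W.finrank_quotient_add_finrank
  rw [Module.finrank_pi] at h1
  have h2 : Module.finrank L ((J → L) ⧸ W) = Module.finrank L (Fin e → L) := by
    rw [Module.finrank_pi, Fintype.card_fin]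
    omega
  obtain ⟨ψ⟩ : Nonempty (((J → L) ⧸ W) ≃ₗ[L] (Fin e → L)) := ⟨LinearEquiv.ofFinrankEq _ _ h2⟩
  obtain ⟨f, hf⟩ : ∃ f : (J → L) →ₗ[L] (Fin e → L), f = ψ.toLinearMap ∘ₗ W.mkQ := ⟨_, rfl⟩
  have hsurj : Function.Surjective f := by
    rw [hf]
    exact ψ.surjective.comp W.mkQ_surjective
  refine ⟨LinearMap.toMatrix' f, ?_, fun q => ?_⟩
  · rw [Fintype.linearIndependent_iff]
    intro c hc i
    obtain ⟨v, hv⟩ := hsurj (Pi.single i 1)
    have h3 : ∑ a, c a * f v a = 0 := by
      have h4 : ∀ a, f v a = ∑ j, LinearMap.toMatrix' f a j * v j := fun a => by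
        have h5 : f v = (LinearMap.toMatrix' f).mulVec v := by
          rw [← Matrix.toLin'_apply, Matrix.toLin'_toMatrix']
        rw [h5]
        rfl
      simp only [h4, Finset.mul_sum]
      rw [Finset.sum_comm]
      refine Finset.sum_eq_zero fun j _ => ?_
      have h5 := congrFun hc j
      rw [Finset.sum_apply, Pi.zero_apply] at h5
      have h6 : ∑ a, c a * LinearMap.toMatrix' f a j = 0 := h5
      simp only [← mul_assoc]
      rw [← Finset.sum_mul, h6, zero_mul]
    rw [hv, Finset.sum_eq_single i] at h3
    · simpa using h3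
    · intro a _ ha
      rw [Pi.single_eq_of_ne ha, mul_zero]
    · intro h
      exact absurd (Finset.mem_univ _) h
  · have h3 : (LinearMap.toMatrix' f).mulVec (rel sq g x q) = f (rel sq g x q) := by
      rw [← Matrix.toLin'_apply, Matrix.toLin'_toMatrix']
    rw [h3, hf]
    change ψ (W.mkQ (rel sq g x q)) = 0
    have h4 : W.mkQ (rel sq g x q) = 0 := by
      rw [Submodule.mkQ_apply, Submodule.Quotient.mk_eq_zero, hW]
      exact Submodule.subset_span ⟨q, rfl⟩
    rw [h4, map_zero]

end

theorem result {k0 k F0 F : Type} [Field k0] [Field k] [Field F0] [Field F] [IsAlgClosed k]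
    [CharZero k] [Algebra k0 k] [Algebra k F] [Algebra k0 F] [IsScalarTower k0 k F]
    [Algebra k0 F0] [Algebra F0 F] [IsScalarTower k0 F0 F] [IsFF k F]
    (hfg : ∃ U : Finset F0, IntermediateField.adjoin k0 (U : Set F0) = ⊤)
    {S : Type} [Fintype S] {n : S → ℕ} (V : Set (MvPolynomial (Co n) F0))
    (hVh : ∀ f ∈ V, ∃ d, IsForm d f) {m : ℕ} {μ : S → ℕ} (hV : DimLE V m μ)
    -- the bundle
    {J Q : Type} [Fintype J] [Fintype Q] (sq : Q → S) (g : ∀ q, J → Fin (n (sq q) + 1) → F0)
    {e : ℕ} (hE : IsBundle V sq g e)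
    -- the coefficients of the section, and the divisors
    {T : Type} [Fintype T] (d : T → S → ℕ) (H : T → MvPolynomial (Co n) F) (z : J → F)
    (hH : Generic V d H z) :
    -- the fibres
    (∀ (L : Type) [Field L] [Algebra F0 L] (x : ∀ s, Fin (n s + 1) → L), IsPoint V x →
      ∃ A : Matrix (Fin e) J L, IsFibre sq g x A) ∧
    -- the height inequality
    ∃ C : ℕ, ∀ (L : Type) [Field L] [Algebra k L] [Algebra F L] [Algebra F0 L]
      [IsScalarTower k F L] [IsScalarTower F0 F L] [FiniteDimensional F L]
      (x : ∀ s, Fin (n s + 1) → L), IsPoint V x →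
      (fun j => algebraMap F L (z j)) ∈ Submodule.span L (Set.range (rel sq g x)) →
      ∀ A : Matrix (Fin e) J L, IsFibre sq g x A →
      ∀ T' : Finset T, (∀ t ∈ T', aeval (all x) (H t) ≠ 0) →
      ∃ (w : S → ℕ) (r : ℕ) (u : Fin (r + Fintype.card S) → Co n → L),
        r ≤ m ∧ ∑ s, w s + e ≤ r ∧ IsTangentBasis V x u ∧
        bundleHeight k A + ∑ s, (∑ t ∈ T', (d t s : ℤ) - w s - μ s - 1) * pht k (x s) ≤
          (Meets k d H T' x).ncard + canDeg k L + C * Module.finrank F L ∧
        bundleHeight k A + ∑ s, (∑ t ∈ T', (d t s : ℤ) - w s) * pht k (x s) +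
          spaceHeight k x u ≤
          (Meets k d H T' x).ncard + canDeg k L + C * Module.finrank F L := by
  classical
  refine ⟨fun L _ _ x hx => exists_fibre sq g x (hE L x hx), ?_⟩
  obtain ⟨X, _, G, P, c, hG, hPh, hP, hc, hHF⟩ := hH
  obtain ⟨C, hC⟩ := Pool.Agent.K6.H80.VB.final (k := k) (β := fun q : Co n => q.1)
    (m := m) (μ := μ) hfg V (fun f hf => by
      obtain ⟨e, he⟩ := hVh f hf
      exact ⟨e, isMulti he⟩) (dimB hV) sq (gg sq g) e z
    (fun Ω _ _ x hx hxV => by
      rw [gv_eq]
      exact hE Ω _ (point hx hxV)) d G (fun a => isMulti (hG a)) P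
    (fun a j => isMulti (hPh a j)) (fun a I hI => sys (hP a I fun s => by
      obtain ⟨h1, h2⟩ := hI s
      constructor
      · rw [← h1]
        refine Eq.trans ?_ (Finset.sum_congr ((filter_eq (n := n) s).symm.trans (by congr))
          fun _ _ => rfl)
        rw [Finset.sum_map]
        rfl
      · refine le_trans ?_ h2
        rw [Set.ncard_eq_toFinset_card']
        refine le_trans (le_of_eq (Finset.card_map
          (⟨fun i => (⟨s, i⟩ : Co n), emb_inj s⟩ : Fin (n s + 1) ↪ Co n)).symm) ?_
        refine Finset.card_le_card fun q hq => ?_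
        obtain ⟨i, hi, rfl⟩ := Finset.mem_map.1 hq
        exact Finset.mem_filter.2 ⟨Finset.mem_univ _, rfl, Set.mem_toFinset.1 hi⟩)) c hc hHF
  refine ⟨C, ?_⟩
  intro L _ _ _ _ _ _ _ x hx hxz A hA T' hT
  have hx0 : ∀ s, ∃ i, x s i ≠ 0 := fun s => by
    obtain ⟨i, hi⟩ := hx.1 s
    exact ⟨i, by rw [hi]; exact one_ne_zero⟩
  have hrel : Pool.Agent.K6.H80.VB.Gv (fun q : Co n => q.1) sq (gg sq g) (all x) =
      rel sq g x := gv_eq sq g (all x)
  obtain ⟨r, u, w, hr, hu, hpx, htan, hw, h1, h2⟩ := hC L (all x) (fun s => by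
    obtain ⟨i, hi⟩ := hx.1 s
    exact ⟨⟨s, i⟩, rfl, hi⟩) hx.2 (by rw [hrel]; exact hxz) A hA.1
    (fun q => by rw [hrel]; exact hA.2 q) T' hT
  have hbht : ∀ s, Pool.Agent.K6.H80.LV.bht k (fun q : Co n => q.1) (all x) s =
      pht k (x s) := fun s => by
    unfold Pool.Agent.K6.H80.LV.bht pht
    congr 1
    exact finsum_congr fun P => po_eq x hx0 P s
  have hsht : Pool.Agent.K6.H80.FV.sht k (fun q : Co n => q.1) (all x) u =
      spaceHeight k x u := by
    unfold Pool.Agent.K6.H80.FV.sht spaceHeight
    congr 1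
    refine finsum_congr fun P => ?_
    unfold Pool.Agent.K6.H80.FV.lo
    refine iInf_congr fun σ => ?_
    congr 1
    exact Finset.sum_congr rfl fun j _ => po_eq x hx0 P _
  have hMt : Pool.Agent.K6.H80.FV.Mt k (fun q : Co n => q.1) d H T' (all x) =
      Meets k d H T' x := by
    ext P
    refine exists_congr fun t => and_congr_right fun _ => ?_
    have h3 : ∑ s, (d t s : ℤ) * Pool.Agent.K6.H80.LV.po (fun q : Co n => q.1) P (all x) s =
        ∑ s, (d t s : ℤ) * pord P (x s) :=
      Finset.sum_congr rfl fun s _ => by rw [po_eq x hx0 P s]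
    rw [h3]
  have hbA : Pool.Agent.K6.H80.VB.wht k A = bundleHeight k A := rfl
  simp only [hbht, hsht, hMt, hbA] at h1 h2
  push_cast at h1 h2
  refine ⟨w, r, u, hr, hw, ⟨hu, fun s => ⟨_, hpx s, fun i => ?_, fun q hq => ?_⟩, htan⟩, h2, h1⟩
  · rw [Pool.Agent.K6.H80.LV.px_apply, if_pos rfl]
    rfl
  · rw [Pool.Agent.K6.H80.LV.px_apply, if_neg hq]

end Pool.Agent.Results.MP_4dacf8_ag.SectionsOfVectorBundles
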